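import Pool.Agent.LibRNP45.Stable

/-!
# Surjective isometries of convex sets are affine in spaces with the Radon-Nikodym property
-/

open Set Topology

namespace Pool.Agent.RNP45

variable {E : Type*} [NormedAddCommGroup E] [NormedSpace ℝ E]

lemma stable_closure {ι : Type*} {K : Set E} {f : ι → E → E} (hf : Isos K f) (hK : Convex ℝ K)
    {Z : Set E} (hZ : ∀ z ∈ Z, Good K f (closure (convexHull ℝ Z)) z) :
    Stable K f (closure (convexHull ℝ Z)) := by
  intro i x hx y hy r hr hv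
  set C : Set E := closure (convexHull ℝ Z) with hCdef
  have hCconv : Convex ℝ C := (convex_convexHull ℝ Z).closure
  have hgood : convexHull ℝ Z ⊆ {v | Good K f C v} :=
    convexHull_min hZ (good_convex hK hCconv)
  have hCcl : IsClosed C := isClosed_closure
  rw [← hCcl.closure_eq, Metric.mem_closure_iff]
  intro κ hκ
  have hκ3 : 0 < κ / 3 := by linarith
  rw [hCdef, Metric.mem_closure_iff] at hv
  obtain ⟨v, hvZ, hvd⟩ := hv (κ / 3) hκ3
  rw [dist_eq_norm] at hvd
  obtain ⟨p, hp, s₀, hs₀, h⟩ := hgood hvZ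
  set B : ℝ := r * ‖x - p‖ + r * ‖y - p‖ + ‖v‖ + 1 with hB
  have hBpos : 0 < B := by positivity
  set η : ℝ := min (1 / 2) (κ / 3 / B) with hη
  have hηpos : 0 < η := lt_min (by norm_num) (by positivity)
  have hη1 : η ≤ 1 / 2 := min_le_left _ _
  have hηB : η * B ≤ κ / 3 := by
    have : η ≤ κ / 3 / B := min_le_right _ _
    rwa [le_div_iff₀ hBpos] at this
  obtain ⟨N, hN⟩ := exists_nat_gt ((1 - η) / (r * (η * s₀)))
  have hN0 : (0 : ℝ) < N := lt_of_le_of_lt (by
    apply div_nonneg <;> [linarith; positivity]) hN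
  set s : ℝ := (1 - η) / (r * N) with hs
  have hspos : 0 < s := by
    apply div_pos <;> [linarith; positivity]
  have hsle : s ≤ η * s₀ := by
    rw [hs, div_le_iff₀ (by positivity)]
    rw [div_lt_iff₀ (by positivity)] at hN
    nlinarith
  have hsrN : r * s * N = 1 - η := by
    rw [hs]
    field_simp
  let q : ℕ → E := fun j => y + ((j : ℝ) / N) • (x - y)
  have hq : ∀ j : ℕ, j ≤ N → q j ∈ K := by
    intro j hj
    have h1 : ((j : ℝ) / N) ≤ 1 := by
      rw [div_le_one hN0]
      exact_mod_cast hj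
    have h2 := hK hy hx (show (0 : ℝ) ≤ 1 - (j : ℝ) / N by linarith) (by positivity)
      (by ring : (1 - (j : ℝ) / N) + (j : ℝ) / N = 1)
    have h3 : q j = (1 - (j : ℝ) / N) • y + ((j : ℝ) / N) • x := by
      simp only [q]
      rw [smul_sub, sub_smul, one_smul]
      abel
    rw [h3]
    exact h2
  let b : ℕ → E := fun j => (1 - η) • q j + η • p
  have hb : ∀ j : ℕ, j ≤ N → b j ∈ K := by
    intro j hj
    exact hK (hq j hj) hp (by linarith) hηpos.le (by ring)
  have hbs : ∀ j : ℕ, b (j + 1) = b j + s • (r • (x - y)) := by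
    intro j
    simp only [b, q]
    rw [smul_smul s r]
    have h1 : (1 - η) * (((j + 1 : ℕ) : ℝ) / N) = (1 - η) * ((j : ℝ) / N) + s * r := by
      rw [hs]
      push_cast
      field_simp
    rw [smul_add, smul_add, smul_smul, smul_smul, h1, add_smul]
    abel
  let c : ℕ → E := fun j => s⁻¹ • (f i (b j + s • v) - f i (b j))
  have hbv : ∀ j : ℕ, j < N → b j + s • v ∈ K := fun j hj =>
    (h (q j) (hq j hj.le) η hηpos (by linarith) s hspos hsle).1
  have hc : ∀ j : ℕ, j < N → c j ∈ C := fun j hj =>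
    (h (q j) (hq j hj.le) η hηpos (by linarith) s hspos hsle).2 i
  have hcn : ∀ j : ℕ, j < N → ‖c j‖ = ‖v‖ := by
    intro j hj
    simp only [c]
    rw [norm_smul, hf.iso i _ (hbv j hj) _ (hb j hj.le), add_sub_cancel_left, norm_smul,
      ← mul_assoc, norm_inv, inv_mul_cancel₀ (norm_ne_zero_iff.2 hspos.ne'), one_mul]
  let e : ℕ → E := fun j => f i (b (j + 1)) - f i (b j + s • v)
  have he : ∀ j : ℕ, j < N → ‖e j‖ ≤ s * (κ / 3) := by
    intro j hj
    simp only [e]
    rw [hf.iso i _ (hb (j + 1) hj) _ (hbv j hj), hbs j, add_sub_add_left_eq_sub, ← smul_sub,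
      norm_smul, Real.norm_of_nonneg hspos.le]
    exact mul_le_mul_of_nonneg_left hvd.le hspos.le
  have hstep : ∀ j : ℕ, f i (b (j + 1)) - f i (b j) = s • c j + e j := by
    intro j
    simp only [c, e]
    rw [smul_smul, mul_inv_cancel₀ hspos.ne', one_smul]
    abel
  have hsum : f i (b N) - f i (b 0) = s • (∑ j ∈ Finset.range N, c j) +
      ∑ j ∈ Finset.range N, e j := by
    rw [← Finset.sum_range_sub (fun j => f i (b j)) N, Finset.smul_sum, ← Finset.sum_add_distrib]
    exact Finset.sum_congr rfl fun j _ => hstep j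
  set cb : E := ∑ j ∈ Finset.range N, (1 / (N : ℝ)) • c j with hcb
  have hcbC : cb ∈ C := by
    apply hCconv.sum_mem (fun _ _ => by positivity)
    · rw [Finset.sum_const, Finset.card_range, nsmul_eq_mul]
      field_simp
    · intro j hj
      exact hc j (Finset.mem_range.1 hj)
  have hcbn : ‖cb‖ ≤ ‖v‖ := by
    calc ‖cb‖ ≤ ∑ j ∈ Finset.range N, ‖(1 / (N : ℝ)) • c j‖ := norm_sum_le _ _
      _ = ∑ j ∈ Finset.range N, (1 / (N : ℝ)) * ‖v‖ := by
        apply Finset.sum_congr rfl
        intro j hj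
        rw [norm_smul, hcn j (Finset.mem_range.1 hj), Real.norm_of_nonneg (by positivity)]
      _ = ‖v‖ := by
        rw [Finset.sum_const, Finset.card_range, nsmul_eq_mul]
        field_simp
  have hcbs : s • (∑ j ∈ Finset.range N, c j) = (s * N) • cb := by
    have h3 : cb = (1 / (N : ℝ)) • ∑ j ∈ Finset.range N, c j := by rw [hcb, Finset.smul_sum]
    have h4 : s * N * (1 / (N : ℝ)) = s := by field_simp
    rw [h3, smul_smul, h4]
  have hen : ‖∑ j ∈ Finset.range N, e j‖ ≤ s * N * (κ / 3) := by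
    calc ‖∑ j ∈ Finset.range N, e j‖ ≤ ∑ j ∈ Finset.range N, ‖e j‖ := norm_sum_le _ _
      _ ≤ ∑ j ∈ Finset.range N, s * (κ / 3) :=
        Finset.sum_le_sum fun j hj => he j (Finset.mem_range.1 hj)
      _ = _ := by
        rw [Finset.sum_const, Finset.card_range, nsmul_eq_mul]
        ring
  have hbN : x - b N = η • (x - p) := by
    simp only [b, q]
    rw [div_self hN0.ne', one_smul, smul_sub, sub_smul, one_smul]
    have : y + (x - y) = x := by abel
    rw [this]
    abel
  have hb0 : y - b 0 = η • (y - p) := by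
    simp only [b, q]
    rw [Nat.cast_zero, zero_div, zero_smul, add_zero, smul_sub, sub_smul, one_smul]
    abel
  have h1 : ‖f i x - f i (b N)‖ = η * ‖x - p‖ := by
    rw [hf.iso i _ hx _ (hb N le_rfl), hbN, norm_smul, Real.norm_of_nonneg hηpos.le]
  have h2 : ‖f i y - f i (b 0)‖ = η * ‖y - p‖ := by
    rw [hf.iso i _ hy _ (hb 0 (Nat.zero_le _)), hb0, norm_smul, Real.norm_of_nonneg hηpos.le]
  refine ⟨cb, hcbC, ?_⟩
  rw [dist_eq_norm]
  have hkey : r • (f i x - f i y) - cb = r • (f i x - f i (b N)) - r • (f i y - f i (b 0)) +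
      (r • ∑ j ∈ Finset.range N, e j) - η • cb := by
    have h3 : r • (f i (b N) - f i (b 0)) = (1 - η) • cb + r • ∑ j ∈ Finset.range N, e j := by
      rw [hsum, hcbs, smul_add, smul_smul, ← mul_assoc, hsrN]
    have h4 : r • (f i x - f i y) = r • (f i x - f i (b N)) - r • (f i y - f i (b 0)) +
        r • (f i (b N) - f i (b 0)) := by
      simp only [smul_sub]
      abel
    rw [h4, h3, sub_smul, one_smul]
    abel
  rw [hkey]
  have hA : ‖r • (f i x - f i (b N))‖ = r * (η * ‖x - p‖) := by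
    rw [norm_smul, h1, Real.norm_of_nonneg hr.le]
  have hB' : ‖r • (f i y - f i (b 0))‖ = r * (η * ‖y - p‖) := by
    rw [norm_smul, h2, Real.norm_of_nonneg hr.le]
  have hC' : ‖r • ∑ j ∈ Finset.range N, e j‖ ≤ κ / 3 := by
    rw [norm_smul, Real.norm_of_nonneg hr.le]
    calc r * ‖∑ j ∈ Finset.range N, e j‖ ≤ r * (s * N * (κ / 3)) := by gcongr
      _ = (r * s * N) * (κ / 3) := by ring
      _ = (1 - η) * (κ / 3) := by rw [hsrN]
      _ ≤ 1 * (κ / 3) := by gcongr; linarith
      _ = κ / 3 := one_mul _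
  have hD : ‖η • cb‖ ≤ η * ‖v‖ := by
    rw [norm_smul, Real.norm_of_nonneg hηpos.le]
    gcongr
  calc ‖r • (f i x - f i (b N)) - r • (f i y - f i (b 0)) +
      (r • ∑ j ∈ Finset.range N, e j) - η • cb‖
      ≤ ‖r • (f i x - f i (b N)) - r • (f i y - f i (b 0)) +
        (r • ∑ j ∈ Finset.range N, e j)‖ + ‖η • cb‖ := norm_sub_le _ _
    _ ≤ ‖r • (f i x - f i (b N)) - r • (f i y - f i (b 0))‖ +
        ‖r • ∑ j ∈ Finset.range N, e j‖ + ‖η • cb‖ := by gcongr; exact norm_add_le _ _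
    _ ≤ ‖r • (f i x - f i (b N))‖ + ‖r • (f i y - f i (b 0))‖ +
        ‖r • ∑ j ∈ Finset.range N, e j‖ + ‖η • cb‖ := by gcongr; exact norm_sub_le _ _
    _ ≤ r * (η * ‖x - p‖) + r * (η * ‖y - p‖) + κ / 3 + η * ‖v‖ := by
        rw [hA, hB']
        gcongr
    _ ≤ η * B + κ / 3 := by
        rw [hB]
        nlinarith
    _ < κ := by linarith

/-- Surjective isometries of convex sets preserve midpoints. -/
theorem midpoint_of_rnp (hE : RNP E) {K : Set E} (hK : Convex ℝ K) {g h : E → E}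
    (hg : ∀ x ∈ K, g x ∈ K) (hh : ∀ x ∈ K, h x ∈ K)
    (hgi : ∀ x ∈ K, ∀ y ∈ K, ‖g x - g y‖ = ‖x - y‖) (hhg : ∀ x ∈ K, h (g x) = x)
    (hgh : ∀ x ∈ K, g (h x) = x) {x y : E} (hx : x ∈ K) (hy : y ∈ K) :
    g ((1 / 2 : ℝ) • (x + y)) = (1 / 2 : ℝ) • (g x + g y) := by
  let f : Bool → E → E := fun b => if b then g else h
  have hft : f true = g := rfl
  have hff : f false = h := rfl
  have hhi : ∀ x ∈ K, ∀ y ∈ K, ‖h x - h y‖ = ‖x - y‖ := by
    intro x hx y hy
    rw [← hgi _ (hh x hx) _ (hh y hy), hgh x hx, hgh y hy]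
  have hf : Isos K f := by
    constructor
    · rintro (_ | _)
      · exact hh
      · exact hg
    · rintro (_ | _)
      · exact hhi
      · exact hgi
  set z : E := (1 / 2 : ℝ) • (x + y) with hz
  have hzK : z ∈ K := by
    rw [hz, smul_add]
    exact hK hx hy (by norm_num) (by norm_num) (by norm_num)
  set m : E := g x - g y with hm
  set u : E := (2 : ℝ) • (g x - g z) with hu
  set v : E := (2 : ℝ) • (g z - g y) with hv
  have huv : m = (1 / 2 : ℝ) • (u + v) := by
    rw [hu, hv, ← smul_add, smul_smul, hm]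
    norm_num
  by_contra hne
  have hε : 0 < ‖u - v‖ := by
    rw [norm_pos_iff]
    intro h0
    apply hne
    have h1 : u = v := sub_eq_zero.1 h0
    have h2 : g x - g z = g z - g y := by
      rw [hu, hv] at h1
      exact smul_right_injective E (two_ne_zero (α := ℝ)) h1
    have h3 : g x + g y = (2 : ℝ) • g z := by
      rw [two_smul]
      have := sub_eq_sub_iff_add_eq_add.1 h2
      exact this
    rw [h3, smul_smul]
    norm_num
  set ε : ℝ := ‖u - v‖ with hεdef
  let F : Set (Set E) := {D | IsClosed D ∧ Convex ℝ D ∧ Stable K f D ∧ m ∈ D}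
  set D : Set E := ⋂₀ F with hD
  have hDcl : IsClosed D := isClosed_sInter fun A hA => hA.1
  have hDconv : Convex ℝ D := convex_sInter fun A hA => hA.2.1
  have hDst : Stable K f D := by
    intro i x hx y hy r hr hxy A hA
    exact hA.2.2.1 i x hx y hy r hr (hxy A hA)
  have hmD : m ∈ D := fun A hA => hA.2.2.2
  have hball : Metric.closedBall (0 : E) ‖m‖ ∈ F := by
    refine ⟨Metric.isClosed_closedBall, convex_closedBall _ _, ?_, by simp⟩
    intro i x hx y hy r hr hxy
    rw [mem_closedBall_zero_iff] at hxy ⊢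
    rw [norm_smul] at hxy ⊢
    rwa [hf.iso i x hx y hy]
  have hDb : Bornology.IsBounded D :=
    Metric.isBounded_closedBall.subset (sInter_subset_of_mem hball)
  have hgK : ∀ x ∈ K, g x ∈ K := hg
  -- the displacement x - y is in D
  have hxy : x - y ∈ D := by
    have h1 := hDst false (g x) (hg x hx) (g y) (hg y hy) 1 one_pos (by rw [one_smul]; exact hmD)
    rw [one_smul, hff, hhg x hx, hhg y hy] at h1
    exact h1
  have huD : u ∈ D := by
    apply hDst true x hx z hzK 2 two_pos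
    have : (2 : ℝ) • (x - z) = x - y := by
      rw [hz, smul_sub, smul_smul]
      norm_num
      rw [two_smul]
      abel
    rw [this]
    exact hxy
  have hvD : v ∈ D := by
    apply hDst true z hzK y hy 2 two_pos
    have : (2 : ℝ) • (z - y) = x - y := by
      rw [hz, smul_sub, smul_smul]
      norm_num
      rw [two_smul]
      abel
    rw [this]
    exact hxy
  have huW : u ∈ Wd K := ⟨2, two_pos, _, hg x hx, _, hg z hzK, rfl⟩
  have hvW : v ∈ Wd K := ⟨2, two_pos, _, hg z hzK, _, hg y hy, rfl⟩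
  set Z : Set E := {z | ∃ a ∈ D, a ∈ Wd K ∧ ∃ b ∈ D, b ∈ Wd K ∧ ε ≤ ‖a - b‖ ∧
      z = (1 / 2 : ℝ) • (a + b)} with hZ
  have hmZ : m ∈ Z := ⟨u, huD, huW, v, hvD, hvW, le_rfl, huv⟩
  have hZC : Z ⊆ closure (convexHull ℝ Z) := (subset_convexHull ℝ Z).trans subset_closure
  have hgoodZ : ∀ z ∈ Z, Good K f (closure (convexHull ℝ Z)) z := by
    rintro _ ⟨a, haD, haW, b, hbD, hbW, hab, rfl⟩
    exact (good_midpoint hf hK hDst haD haW hbD hbW hab).mono hZC
  have hCF : closure (convexHull ℝ Z) ∈ F :=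
    ⟨isClosed_closure, (convex_convexHull ℝ Z).closure, stable_closure hf hK hgoodZ, hZC hmZ⟩
  have hDC : D ⊆ closure (convexHull ℝ Z) := sInter_subset_of_mem hCF
  obtain ⟨φ, c, ⟨d, hd, hdc⟩, hsl⟩ := hE D ⟨m, hmD⟩ hDcl hDb hDconv (ε / 2) (by linarith)
  -- the supremum of φ on D
  have hbdd : BddAbove (φ '' D) := by
    refine ⟨‖φ‖ * ‖m‖, ?_⟩
    rintro _ ⟨w, hw, rfl⟩
    have h1 : ‖w‖ ≤ ‖m‖ := by
      have := sInter_subset_of_mem hball hw
      rwa [mem_closedBall_zero_iff] at this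
    calc φ w ≤ ‖φ w‖ := le_abs_self _
      _ ≤ ‖φ‖ * ‖w‖ := φ.le_opNorm w
      _ ≤ _ := by gcongr
  set M : ℝ := sSup (φ '' D) with hM
  have hle : ∀ w ∈ D, φ w ≤ M := fun w hw => le_csSup hbdd ⟨w, hw, rfl⟩
  have hcM : c < M := hdc.trans_le (hle d hd)
  obtain ⟨_, ⟨w, hw, rfl⟩, hwc⟩ := exists_lt_of_lt_csSup (s := φ '' D) ⟨_, d, hd, rfl⟩
    (show (c + M) / 2 < sSup (φ '' D) by rw [← hM]; linarith)
  have hsub : closure (convexHull ℝ Z) ⊆ {w | φ w ≤ (c + M) / 2} := by
    apply closure_minimal _ (isClosed_le φ.continuous continuous_const)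
    apply convexHull_min _ (convex_halfSpace_le φ.toLinearMap.isLinear _)
    rintro _ ⟨a, haD, -, b, hbD, -, hab, rfl⟩
    by_contra hcon
    have hcon : (c + M) / 2 < φ ((1 / 2 : ℝ) • (a + b)) := not_le.1 hcon
    rw [map_smul, map_add, smul_eq_mul] at hcon
    have ha := hle a haD
    have hb := hle b hbD
    have := hsl a haD b hbD (by linarith) (by linarith)
    linarith
  have : φ w ≤ (c + M) / 2 := hsub (hDC hw)
  linarith

end Pool.Agent.RNP45
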