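import Pool.Agent.LibLRFix.Min

/-!
# Dentable sets and the Radon-Nikodym property (geometric form)
-/

open Set Topology

namespace Pool.Agent.RNP45

variable {E : Type*} [NormedAddCommGroup E] [NormedSpace ℝ E]

/-- The set `C` has nonempty slices of arbitrarily small diameter. -/
def Dentable (C : Set E) : Prop :=
  ∀ ε : ℝ, 0 < ε → ∃ (φ : E →L[ℝ] ℝ) (c : ℝ), (∃ x ∈ C, c < φ x) ∧
    ∀ x ∈ C, ∀ y ∈ C, c < φ x → c < φ y → ‖x - y‖ ≤ ε

/-- The Radon-Nikodym property in its geometric form: every nonempty bounded closed convex set is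
dentable. -/
def RNP (E : Type*) [NormedAddCommGroup E] [NormedSpace ℝ E] : Prop :=
  ∀ C : Set E, C.Nonempty → IsClosed C → Bornology.IsBounded C → Convex ℝ C → Dentable C

end Pool.Agent.RNP45
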