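import Pool.Agent.LibRNP45.Tree

/-!
# Separable reduction: weakly compact convex sets are dentable
-/

open Set Topology Filter

namespace Pool.Agent.RNP45

variable {E : Type*} [NormedAddCommGroup E] [NormedSpace ℝ E]

/-- Countable sets closed under countably many operations. -/
private lemma d1_closed {X : Type*} (op : ℕ → X → X) (x₀ : X) :
    ∃ D : Set X, D.Countable ∧ x₀ ∈ D ∧ ∀ i, ∀ a ∈ D, op i a ∈ D := by
  let G : Set X → Set X := fun A => A ∪ ⋃ i, op i '' A
  let D : ℕ → Set X := fun n => G^[n] {x₀}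
  have hD : ∀ n, D (n + 1) = G (D n) := fun n => Function.iterate_succ_apply' G n _
  refine ⟨⋃ n, D n, ?_, ?_, ?_⟩
  · refine countable_iUnion fun n => ?_
    induction n with
    | zero => exact countable_singleton x₀
    | succ n ih =>
      rw [hD]
      exact ih.union (countable_iUnion fun i => ih.image _)
  · exact mem_iUnion.2 ⟨0, rfl⟩
  · intro i a ha
    obtain ⟨m, hm⟩ := mem_iUnion.1 ha
    refine mem_iUnion.2 ⟨m + 1, ?_⟩
    rw [hD]
    right
    exact mem_iUnion.2 ⟨i, mem_image_of_mem _ hm⟩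

/-- A point in the closed convex hull of `B` is in the closed convex hull of a sequence in `B`. -/
private lemma d1_seq {B : Set E} {x : E} (hx : x ∈ closure (convexHull ℝ B)) :
    ∃ a : ℕ → E, (∀ n, a n ∈ B) ∧ x ∈ closure (convexHull ℝ (range a)) := by
  obtain ⟨u, hu, hux⟩ := mem_closure_iff_seq_limit.1 hx
  have h1 : ∀ n, ∃ t : Finset E, (t : Set E) ⊆ B ∧ u n ∈ convexHull ℝ (t : Set E) := by
    intro n
    have h2 := hu n
    rw [convexHull_eq_union_convexHull_finite_subsets] at h2
    simp only [mem_iUnion] at h2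
    obtain ⟨t, ht, h3⟩ := h2
    exact ⟨t, ht, h3⟩
  choose t ht hut using h1
  have hc : (⋃ n, (t n : Set E)).Countable := countable_iUnion fun n => (t n).countable_toSet
  have hx' : x ∈ closure (convexHull ℝ (⋃ n, (t n : Set E))) := by
    refine mem_closure_iff_seq_limit.2 ⟨u, fun n => ?_, hux⟩
    exact convexHull_mono (subset_iUnion (fun n => (t n : Set E)) n) (hut n)
  have hne : (⋃ n, (t n : Set E)).Nonempty := by
    rw [nonempty_iff_ne_empty]
    intro h
    rw [h, convexHull_empty, closure_empty] at hx'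
    exact hx'
  obtain ⟨a, ha⟩ := hc.exists_eq_range hne
  refine ⟨a, fun n => ?_, by rwa [← ha]⟩
  have h4 : a n ∈ ⋃ n, (t n : Set E) := by
    rw [ha]
    exact mem_range_self n
  obtain ⟨m, hm⟩ := mem_iUnion.1 h4
  exact ht m hm

/-- If `φ` exceeds `c` at a point of the closed convex hull of `B` then also at a point of `B`. -/
private lemma d1_slice {B : Set E} {x : E} (hx : x ∈ closure (convexHull ℝ B)) (φ : E →L[ℝ] ℝ)
    {c : ℝ} (h : c < φ x) : ∃ b ∈ B, c < φ b := by
  by_contra hcon
  push Not at hcon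
  have h1 : convexHull ℝ B ⊆ {z | φ z ≤ c} :=
    convexHull_min (fun b hb => hcon b hb) (convex_halfSpace_le φ.toLinearMap.isLinear c)
  have h2 : closure (convexHull ℝ B) ⊆ {z | φ z ≤ c} :=
    closure_minimal h1 (isClosed_le φ.continuous continuous_const)
  exact absurd (h2 hx) (not_le.2 h)

/-- Weakly compact convex sets are dentable. -/
theorem dentable_of_weaklyCompact {C : Set E} (hC : LRFix.WeaklyCompact C) (hne : C.Nonempty)
    (hconv : Convex ℝ C) : Dentable C := by
  by_contra hcon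
  unfold Dentable at hcon
  push Not at hcon
  obtain ⟨ε, hε, hcon⟩ := hcon
  have h1 : ∀ x ∈ C, x ∈ closure (convexHull ℝ (C \ Metric.ball x (ε / 2))) := by
    intro x hx
    by_contra hx'
    obtain ⟨f, u, hfx, hfu⟩ := geometric_hahn_banach_point_closed
      (convex_convexHull ℝ (C \ Metric.ball x (ε / 2))).closure isClosed_closure hx'
    have h2 : ∀ z ∈ C, -u < (-f) z → ‖z - x‖ < ε / 2 := by
      intro z hz hzu
      by_contra hzx
      have h3 : z ∈ C \ Metric.ball x (ε / 2) := by
        refine ⟨hz, fun h4 => hzx ?_⟩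
        rwa [Metric.mem_ball, dist_eq_norm] at h4
      have h5 := hfu z (subset_closure (subset_convexHull ℝ _ h3))
      have h6 : (-f) z = -(f z) := rfl
      rw [h6] at hzu
      linarith
    have h7 : -u < (-f) x := by
      have h6 : (-f) x = -(f x) := rfl
      rw [h6]
      linarith
    obtain ⟨y, hy, z, hz, hyu, hzu, hyz⟩ := hcon (-f) (-u) ⟨x, hx, h7⟩
    have h8 := h2 y hy hyu
    have h9 := h2 z hz hzu
    have h10 : ‖y - z‖ ≤ ‖y - x‖ + ‖z - x‖ := by
      have h11 : y - z = (y - x) - (z - x) := by abel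
      rw [h11]
      exact norm_sub_le _ _
    linarith
  have h2 : ∀ x : C, ∃ a : ℕ → C, (∀ n, ε / 2 ≤ ‖(x : E) - a n‖) ∧
      (x : E) ∈ closure (convexHull ℝ (range fun n => (a n : E))) := by
    intro x
    obtain ⟨a, ha, hxa⟩ := d1_seq (h1 x x.2)
    refine ⟨fun n => ⟨a n, (ha n).1⟩, fun n => ?_, hxa⟩
    by_contra h3
    push Not at h3
    refine (ha n).2 ?_
    rw [Metric.mem_ball, dist_comm, dist_eq_norm]
    exact h3
  choose a ha hxa using h2
  obtain ⟨x₀, hx₀⟩ := hne
  obtain ⟨D, hDc, hD0, hD⟩ := d1_closed (fun n (x : C) => a x n) (⟨x₀, hx₀⟩ : C)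
  have hDC : Subtype.val '' D ⊆ C := by
    rintro _ ⟨x, -, rfl⟩
    exact x.2
  have hsub : closure (convexHull ℝ (Subtype.val '' D)) ⊆ C :=
    closure_minimal (convexHull_min hDC hconv) hC.isClosed
  have hsep : TopologicalSpace.IsSeparable (closure (convexHull ℝ (Subtype.val '' D))) := by
    rw [TopologicalSpace.isSeparable_closure]
    refine TopologicalSpace.IsSeparable.mono
      ((hDc.image Subtype.val).isSeparable.span (R := ℝ)) ?_
    exact convexHull_min Submodule.subset_span (Submodule.convex _)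
  refine tree (C := closure (convexHull ℝ (Subtype.val '' D))) (hC.mono hsub isClosed_closure
    (convex_convexHull ℝ _).closure) hsep
    ⟨x₀, subset_closure (subset_convexHull ℝ _ ⟨_, hD0, rfl⟩)⟩ (half_pos hε) ?_
  rintro φ c ⟨x, hx, hcx⟩
  obtain ⟨_, ⟨b, hb, rfl⟩, hcb⟩ := d1_slice hx φ hcx
  obtain ⟨_, ⟨n, rfl⟩, hcn⟩ := d1_slice (hxa b) φ hcb
  exact ⟨b, subset_closure (subset_convexHull ℝ _ ⟨b, hb, rfl⟩), a b n,
    subset_closure (subset_convexHull ℝ _ ⟨a b n, hD n b hb, rfl⟩), hcb, hcn, ha b n⟩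

end Pool.Agent.RNP45
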