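import Pool.Agent.LibRNP45.Affine

/-!
# Common fixed points of surjective isometries
-/

open Set Topology

namespace Pool.Agent.RNP45

variable {E : Type*} [NormedAddCommGroup E] [NormedSpace ℝ E]

lemma weaklyCompact_isBounded {K : Set E} (hK : LRFix.WeaklyCompact K) :
    Bornology.IsBounded K := by
  have h : ∀ φ : E →L[ℝ] ℝ, ∃ C, ∀ x : K,
      ‖NormedSpace.inclusionInDoubleDual ℝ E (x : E) φ‖ ≤ C := by
    intro φ
    have h1 : IsCompact (φ '' K) := by
      have h2 : Continuous (fun x : WeakSpace ℝ E => φ ((toWeakSpace ℝ E).symm x)) :=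
        WeakBilin.eval_continuous (topDualPairing ℝ E).flip φ
      have h3 := hK.image h2
      rw [image_image] at h3
      exact h3
    obtain ⟨R, hR⟩ := h1.isBounded.exists_norm_le
    exact ⟨R, fun x => hR _ ⟨x, x.2, rfl⟩⟩
  obtain ⟨C, hC⟩ := banach_steinhaus h
  rw [isBounded_iff_forall_norm_le]
  refine ⟨C, fun x hx => ?_⟩
  have h1 := hC ⟨x, hx⟩
  have h3 : ‖NormedSpace.inclusionInDoubleDual ℝ E x‖ = ‖x‖ :=
    (NormedSpace.inclusionInDoubleDualLi (E := E) ℝ).norm_map x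
  rwa [h3] at h1

/-- Affinity: surjective isometries of a convex set are affine. -/
theorem affine_of_rnp (hE : RNP E) {K : Set E} (hK : Convex ℝ K) (T : K ≃ᵢ K) :
    ∀ x y z : K, ∀ t : ℝ, 0 ≤ t → t ≤ 1 → (z : E) = (1 - t) • (x : E) + t • (y : E) →
      (T z : E) = (1 - t) • (T x : E) + t • (T y : E) := by
  classical
  let g : E → E := fun x => if hx : x ∈ K then (T ⟨x, hx⟩ : E) else x
  let h : E → E := fun x => if hx : x ∈ K then (T.symm ⟨x, hx⟩ : E) else x
  have hgv : ∀ x : K, g x = T x := fun x => by simp only [g, dif_pos x.2]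
  have hhv : ∀ x : K, h x = T.symm x := fun x => by simp only [h, dif_pos x.2]
  have hmid : ∀ x ∈ K, ∀ y ∈ K, g ((1 / 2 : ℝ) • (x + y)) = (1 / 2 : ℝ) • (g x + g y) := by
    intro x hx y hy
    refine midpoint_of_rnp hE hK (g := g) (h := h) ?_ ?_ ?_ ?_ ?_ hx hy
    · intro x hx
      rw [hgv ⟨x, hx⟩]
      exact (T ⟨x, hx⟩).2
    · intro x hx
      rw [hhv ⟨x, hx⟩]
      exact (T.symm ⟨x, hx⟩).2
    · intro x hx y hy
      rw [hgv ⟨x, hx⟩, hgv ⟨y, hy⟩]
      have := T.isometry.dist_eq ⟨x, hx⟩ ⟨y, hy⟩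
      rwa [Subtype.dist_eq, Subtype.dist_eq, dist_eq_norm, dist_eq_norm] at this
    · intro x hx
      rw [hgv ⟨x, hx⟩, hhv]
      rw [IsometryEquiv.symm_apply_apply]
    · intro x hx
      rw [hhv ⟨x, hx⟩, hgv]
      rw [IsometryEquiv.apply_symm_apply]
  intro x y z t ht0 ht1 hz
  -- the set of good parameters is closed and contains the dyadics
  have hmem : ∀ t : ℝ, 0 ≤ t → t ≤ 1 → (1 - t) • (x : E) + t • (y : E) ∈ K := fun t h0 h1 =>
    hK x.2 y.2 (by linarith) h0 (by ring)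
  let A : Set ℝ := {t | t ∈ Icc (0 : ℝ) 1 ∧
    g ((1 - t) • (x : E) + t • (y : E)) = (1 - t) • g x + t • g y}
  have hgiso : ∀ a ∈ K, ∀ b ∈ K, ‖g a - g b‖ = ‖a - b‖ := by
    intro a ha b hb
    rw [hgv ⟨a, ha⟩, hgv ⟨b, hb⟩]
    have := T.isometry.dist_eq ⟨a, ha⟩ ⟨b, hb⟩
    rwa [Subtype.dist_eq, Subtype.dist_eq, dist_eq_norm, dist_eq_norm] at this
  have h0 : (0 : ℝ) ∈ A := by
    refine ⟨⟨le_rfl, zero_le_one⟩, ?_⟩
    simp
  have h1 : (1 : ℝ) ∈ A := by
    refine ⟨⟨zero_le_one, le_rfl⟩, ?_⟩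
    simp
  have hA : ∀ a ∈ A, ∀ b ∈ A, (a + b) / 2 ∈ A := by
    rintro a ⟨⟨ha0, ha1⟩, ha⟩ b ⟨⟨hb0, hb1⟩, hb⟩
    refine ⟨⟨by linarith, by linarith⟩, ?_⟩
    have h2 := hmid _ (hmem a ha0 ha1) _ (hmem b hb0 hb1)
    rw [ha, hb] at h2
    have h3 : (1 / 2 : ℝ) • (((1 - a) • (x : E) + a • (y : E)) + ((1 - b) • (x : E) +
        b • (y : E))) = (1 - (a + b) / 2) • (x : E) + ((a + b) / 2) • (y : E) := by
      module
    rw [h3] at h2
    rw [h2]
    module
  have hcl : IsClosed A := by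
    rw [← isSeqClosed_iff_isClosed]
    intro u a hu hua
    have haI : a ∈ Icc (0 : ℝ) 1 := isClosed_Icc.mem_of_tendsto hua
      (Filter.Eventually.of_forall fun n => (hu n).1)
    refine ⟨haI, ?_⟩
    have h4 : Filter.Tendsto (fun n => g ((1 - u n) • (x : E) + u n • (y : E))) Filter.atTop
        (𝓝 (g ((1 - a) • (x : E) + a • (y : E)))) := by
      rw [tendsto_iff_norm_sub_tendsto_zero]
      have h5 : ∀ n, ‖g ((1 - u n) • (x : E) + u n • (y : E)) -
          g ((1 - a) • (x : E) + a • (y : E))‖ = ‖((1 - u n) • (x : E) + u n • (y : E)) -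
          ((1 - a) • (x : E) + a • (y : E))‖ := fun n =>
        hgiso _ (hmem _ (hu n).1.1 (hu n).1.2) _ (hmem a haI.1 haI.2)
      simp_rw [h5]
      rw [← tendsto_iff_norm_sub_tendsto_zero]
      exact ((tendsto_const_nhds.sub hua).smul tendsto_const_nhds).add
        (hua.smul tendsto_const_nhds)
    have h6 : Filter.Tendsto (fun n => (1 - u n) • g x + u n • g y) Filter.atTop
        (𝓝 ((1 - a) • g x + a • g y)) :=
      ((tendsto_const_nhds.sub hua).smul tendsto_const_nhds).add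
        (hua.smul tendsto_const_nhds)
    refine tendsto_nhds_unique h4 (h6.congr fun n => ?_)
    exact ((hu n).2).symm
  have htA : t ∈ A := by
    have h7 : ∀ n : ℕ, ∀ k : ℕ, k ≤ 2 ^ n → ((k : ℝ) / 2 ^ n) ∈ A := by
      intro n
      induction n with
      | zero =>
        intro k hk
        rw [pow_zero] at hk
        interval_cases k
        · simpa using h0
        · simpa using h1
      | succ n ih =>
        intro k hk
        have hk2 : k / 2 ≤ 2 ^ n := by
          rw [pow_succ] at hk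
          omega
        have hk3 : (k + 1) / 2 ≤ 2 ^ n := by
          rw [pow_succ] at hk
          omega
        have h8 := hA _ (ih _ hk2) _ (ih _ hk3)
        have h9 : ((k / 2 : ℕ) : ℝ) + (((k + 1) / 2 : ℕ) : ℝ) = k := by
          have : k / 2 + (k + 1) / 2 = k := by omega
          exact_mod_cast this
        have h10 : (((k / 2 : ℕ) : ℝ) / 2 ^ n + (((k + 1) / 2 : ℕ) : ℝ) / 2 ^ n) / 2 =
            (k : ℝ) / 2 ^ (n + 1) := by
          rw [← add_div, h9, pow_succ]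
          field_simp
        rwa [h10] at h8
    have h11 : Filter.Tendsto (fun n : ℕ => ((⌊t * 2 ^ n⌋₊ : ℕ) : ℝ) / 2 ^ n) Filter.atTop
        (𝓝 t) := by
      have h12 : Filter.Tendsto (fun n : ℕ => (2 : ℝ) ^ n) Filter.atTop Filter.atTop :=
        tendsto_pow_atTop_atTop_of_one_lt (by norm_num)
      exact (tendsto_nat_floor_mul_div_atTop ht0).comp h12
    refine hcl.mem_of_tendsto h11 (Filter.Eventually.of_forall fun n => h7 n _ ?_)
    have h13 : t * 2 ^ n ≤ ((2 ^ n : ℕ) : ℝ) := by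
      push_cast
      nlinarith [pow_pos (show (0 : ℝ) < 2 by norm_num) n]
    exact Nat.floor_le_of_le h13
  have h14 := htA.2
  rw [← hz, hgv, hgv, hgv] at h14
  exact h14

/-- All surjective isometries of a weakly compact convex set have a common fixed point. -/
theorem fixed_of_rnp (hE : RNP E) {K : Set E} (hK : LRFix.WeaklyCompact K) (hne : K.Nonempty)
    (hconv : Convex ℝ K) : ∃ x : K, ∀ T : K ≃ᵢ K, T x = x := by
  classical
  let f : (K ≃ᵢ K) → E → E := fun T x => if hx : x ∈ K then (T ⟨x, hx⟩ : E) else x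
  have hf : ∀ (T : K ≃ᵢ K) (x : K), f T x = T x := fun T x => by simp only [f, dif_pos x.2]
  have hiso : ∀ (T : K ≃ᵢ K) (x y : K), ‖(T x : E) - T y‖ = ‖(x : E) - y‖ := by
    intro T x y
    have := T.isometry.dist_eq x y
    rwa [Subtype.dist_eq, Subtype.dist_eq, dist_eq_norm, dist_eq_norm] at this
  have hact : LRFix.Act f K := by
    refine ⟨?_, ?_, ?_, ?_⟩
    · intro T x hx
      rw [hf T ⟨x, hx⟩]
      exact (T ⟨x, hx⟩).2
    · intro x hx
      rw [hf 1 ⟨x, hx⟩]
      rfl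
    · intro T T' x hx
      rw [hf (T * T') ⟨x, hx⟩, hf T' ⟨x, hx⟩, hf T]
      rfl
    · intro T x hx y hy
      rw [hf T ⟨x, hx⟩, hf T ⟨y, hy⟩, hiso]
  obtain ⟨M, hMK, hM, hMinv⟩ := LRFix.exists_minInv hK hne hconv hact
  obtain ⟨x, hx⟩ := hM.nonempty
  have hMT : ∀ (T : K ≃ᵢ K) (y : K), (y : E) ∈ M → (T y : E) ∈ M := by
    intro T y hy
    have := hMinv T y hy
    rwa [hf] at this
  suffices hsing : ∀ y ∈ M, y = x by
    refine ⟨⟨x, hMK hx⟩, fun T => Subtype.ext ?_⟩
    exact hsing _ (hMT T ⟨x, hMK hx⟩ hx)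
  intro y hy
  by_contra hxy
  have hpos : 0 < ‖y - x‖ := norm_pos_iff.2 (sub_ne_zero.2 hxy)
  obtain ⟨φ, c, ⟨d, hd, hdc⟩, hsl⟩ := hE M hM.nonempty hM.closed
    ((weaklyCompact_isBounded hK).subset hMK) hM.convex (‖y - x‖ / 4) (by positivity)
  set z : E := (1 - 1 / 2 : ℝ) • x + (1 / 2 : ℝ) • y with hz
  have hzM : z ∈ M := hM.convex hx hy (by norm_num) (by norm_num) (by norm_num)
  -- some image of the midpoint is in the slice
  have hex : ∃ T : K ≃ᵢ K, c < φ (T ⟨z, hMK hzM⟩) := by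
    by_contra hcon
    push Not at hcon
    let N : Set E := {w | ∃ hw : w ∈ M, ∀ T : K ≃ᵢ K, φ (T ⟨w, hMK hw⟩) ≤ c}
    have hNM : N = M := by
      apply hM.min N (fun w hw => hw.1) ⟨z, hzM, hcon⟩
      · rw [← isSeqClosed_iff_isClosed]
        intro u w hu huw
        have hwM : w ∈ M := hM.closed.mem_of_tendsto huw
          (Filter.Eventually.of_forall fun n => (hu n).1)
        refine ⟨hwM, fun T => ?_⟩
        have h1 : Filter.Tendsto (fun n => (T ⟨u n, hMK (hu n).1⟩ : E)) Filter.atTop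
            (𝓝 (T ⟨w, hMK hwM⟩ : E)) := by
          rw [tendsto_iff_norm_sub_tendsto_zero]
          simp_rw [hiso]
          rw [← tendsto_iff_norm_sub_tendsto_zero]
          exact huw
        exact le_of_tendsto ((φ.continuous.tendsto _).comp h1)
          (Filter.Eventually.of_forall fun n => (hu n).2 T)
      · rintro w ⟨hw, hwT⟩ w' ⟨hw', hwT'⟩ a b ha hb hab
        refine ⟨hM.convex hw hw' ha hb hab, fun T => ?_⟩
        have h2 := affine_of_rnp hE hconv T ⟨w, hMK hw⟩ ⟨w', hMK hw'⟩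
          ⟨a • w + b • w', hMK (hM.convex hw hw' ha hb hab)⟩ b hb (by linarith)
          (by
            have : 1 - b = a := by linarith
            rw [this])
        rw [h2, map_add, map_smul, map_smul, smul_eq_mul, smul_eq_mul]
        have h3 := hwT T
        have h4 := hwT' T
        have h5 : (1 - b) * φ (T ⟨w, hMK hw⟩) ≤ (1 - b) * c :=
          mul_le_mul_of_nonneg_left h3 (by linarith)
        have h6 : b * φ (T ⟨w', hMK hw'⟩) ≤ b * c := mul_le_mul_of_nonneg_left h4 hb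
        linarith
      · rintro T w ⟨hw, hwT⟩
        have h7 : f T w = T ⟨w, hMK hw⟩ := hf T ⟨w, hMK hw⟩
        have h8 : f T w ∈ M := hMinv T w hw
        refine ⟨h8, fun T' => ?_⟩
        have h9 := hwT (T' * T)
        have h10 : (T' ⟨f T w, hMK h8⟩ : E) = (T' * T) ⟨w, hMK hw⟩ := by
          have h11 : (⟨f T w, hMK h8⟩ : K) = T ⟨w, hMK hw⟩ := Subtype.ext h7
          rw [h11]
          rfl
        rw [h10]
        exact h9
    have hdN : d ∈ N := by rw [hNM]; exact hd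
    obtain ⟨hdM, hdT⟩ := hdN
    have h12 := hdT 1
    have h13 : ((1 : K ≃ᵢ K) ⟨d, hMK hdM⟩ : E) = d := rfl
    rw [h13] at h12
    linarith
  obtain ⟨T, hT⟩ := hex
  have hTz := affine_of_rnp hE hconv T ⟨x, hMK hx⟩ ⟨y, hMK hy⟩ ⟨z, hMK hzM⟩ (1 / 2)
    (by norm_num) (by norm_num) hz
  have hTzM := hMT T ⟨z, hMK hzM⟩ hzM
  have hTxM := hMT T ⟨x, hMK hx⟩ hx
  have hTyM := hMT T ⟨y, hMK hy⟩ hy
  have hzx : ‖z - x‖ = ‖y - x‖ / 2 := by
    have : z - x = (1 / 2 : ℝ) • (y - x) := by rw [hz]; module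
    rw [this, norm_smul, Real.norm_of_nonneg (by norm_num)]
    ring
  have hzy : ‖z - y‖ = ‖y - x‖ / 2 := by
    have : z - y = -((1 / 2 : ℝ) • (y - x)) := by rw [hz]; module
    rw [this, norm_neg, norm_smul, Real.norm_of_nonneg (by norm_num)]
    ring
  have hor : c < φ (T ⟨x, hMK hx⟩) ∨ c < φ (T ⟨y, hMK hy⟩) := by
    by_contra hcon
    push Not at hcon
    rw [hTz, map_add, map_smul, map_smul, smul_eq_mul, smul_eq_mul] at hT
    linarith [hcon.1, hcon.2]
  rcases hor with h | h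
  · have h1 := hsl _ hTzM _ hTxM hT h
    rw [hiso] at h1
    change ‖z - x‖ ≤ _ at h1
    linarith
  · have h1 := hsl _ hTzM _ hTyM hT h
    rw [hiso] at h1
    change ‖z - y‖ ≤ _ at h1
    linarith

end Pool.Agent.RNP45
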