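import Mathlib

/-!
# Isometries seen through a strictly convex coordinate
-/

open Set Topology Filter

namespace Pool.Agent.RNP45

variable {E : Type*} [NormedAddCommGroup E] [NormedSpace ℝ E]
variable {F : Type*} [NormedAddCommGroup F] [NormedSpace ℝ F]

/-- The operator `T` dominates the norm on an open set of pairs of points of `K`. -/
structure Coord (K : Set E) (g h : E → E) (T : E →L[ℝ] F) (p : E → ℝ) (φ : F →L[ℝ] ℝ) : Prop where
  conv : Convex ℝ K
  bdd : ∃ R : ℝ, ∀ x ∈ K, ∀ y ∈ K, ‖x - y‖ ≤ R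
  gK : ∀ x ∈ K, g x ∈ K
  hK : ∀ x ∈ K, h x ∈ K
  iso : ∀ x ∈ K, ∀ y ∈ K, ‖g x - g y‖ = ‖x - y‖
  hg : ∀ x ∈ K, h (g x) = x
  gh : ∀ x ∈ K, g (h x) = x
  T1 : ∀ v, ‖T v‖ ≤ ‖v‖
  φ1 : ∀ f, φ f ≤ ‖f‖
  pc : Continuous p
  psmul : ∀ (c : ℝ) v, 0 < c → p (c • v) = c * p v
  dom : ∀ x ∈ K, ∀ y ∈ K, ‖y - x‖ ≤ max ‖T (y - x)‖ (p (y - x))
  ne : ∃ x ∈ K, ∃ y ∈ K, p (y - x) < φ (T (y - x))

/-- Midpoint affine maps on `K`. -/
def MidAff (K : Set E) (A : E → F) : Prop :=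
  ∀ x ∈ K, ∀ y ∈ K, A ((1 / 2 : ℝ) • (x + y)) = (1 / 2 : ℝ) • (A x + A y)

lemma mid_mem {K : Set E} (hK : Convex ℝ K) {x y : E} (hx : x ∈ K) (hy : y ∈ K) :
    (1 / 2 : ℝ) • (x + y) ∈ K := by
  rw [smul_add]
  exact hK hx hy (by norm_num) (by norm_num) (by norm_num)

lemma MidAff.dyadic {K : Set E} (hK : Convex ℝ K) {A : E → F} (hA : MidAff K A) {c x : E}
    (hc : c ∈ K) (hx : x ∈ K) (n : ℕ) : c + (1 / 2 : ℝ) ^ n • (x - c) ∈ K ∧
      A (c + (1 / 2 : ℝ) ^ n • (x - c)) = A c + (1 / 2 : ℝ) ^ n • (A x - A c) := by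
  induction n with
  | zero => simp [hx]
  | succ n ih =>
    have h1 : c + (1 / 2 : ℝ) ^ (n + 1) • (x - c) =
        (1 / 2 : ℝ) • (c + (c + (1 / 2 : ℝ) ^ n • (x - c))) := by
      rw [pow_succ', mul_smul]
      module
    rw [h1]
    refine ⟨mid_mem hK hc ih.1, ?_⟩
    rw [hA c hc _ ih.1, ih.2, pow_succ', mul_smul]
    module

/-- Affine maps are determined by their germ. -/
lemma MidAff.eq_of_germ {K : Set E} (hK : Convex ℝ K) {A B : E → F} (hA : MidAff K A)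
    (hB : MidAff K B) {c : E} (hc : c ∈ K) {ρ : ℝ} (hρ : 0 < ρ)
    (h : ∀ x ∈ K, ‖x - c‖ < ρ → A x = B x) {x : E} (hx : x ∈ K) : A x = B x := by
  have h1 : Tendsto (fun n : ℕ => (1 / 2 : ℝ) ^ n * ‖x - c‖) atTop (𝓝 (0 * ‖x - c‖)) :=
    (tendsto_pow_atTop_nhds_zero_of_lt_one (by norm_num) (by norm_num)).mul_const _
  rw [zero_mul] at h1
  obtain ⟨n, hn⟩ := (h1.eventually (gt_mem_nhds hρ)).exists
  obtain ⟨hq, hqA⟩ := hA.dyadic hK hc hx n
  obtain ⟨-, hqB⟩ := hB.dyadic hK hc hx n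
  have h2 : A (c + (1 / 2 : ℝ) ^ n • (x - c)) = B (c + (1 / 2 : ℝ) ^ n • (x - c)) := by
    apply h _ hq
    rw [add_sub_cancel_left, norm_smul, Real.norm_of_nonneg (by positivity)]
    exact hn
  have h3 : A c = B c := h c hc (by simpa using hρ)
  rw [hqA, hqB, h3] at h2
  have h4 : (1 / 2 : ℝ) ^ n • (A x - B c) = (1 / 2 : ℝ) ^ n • (B x - B c) := add_left_cancel h2
  have h5 : A x - B c = B x - B c := smul_right_injective F (by positivity : (1 / 2 : ℝ) ^ n ≠ 0) h4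
  exact sub_left_injective h5

variable [StrictConvexSpace ℝ F]

lemma eq_of_norm_le {u v : F} {ρ : ℝ} (hu : ‖u‖ ≤ ρ) (hv : ‖v‖ ≤ ρ) (h : 2 * ρ ≤ ‖u + v‖) :
    u = v := by
  have h1 := norm_add_le u v
  have h2 : ‖u‖ = ‖v‖ := by linarith
  apply eq_of_norm_eq_of_norm_add_eq h2
  linarith

namespace Coord

variable {K : Set E} {g h : E → E} {T : E →L[ℝ] F} {p : E → ℝ} {φ : F →L[ℝ] ℝ}

lemma mid (D : Coord K g h T p φ) {x w : E} (hx : x ∈ K) (hw : w ∈ K)
    (hO : p (g w - g x) < φ (T (g w - g x))) :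
    T (g ((1 / 2 : ℝ) • (x + w))) = (1 / 2 : ℝ) • (T (g x) + T (g w)) := by
  set z : E := (1 / 2 : ℝ) • (x + w) with hz
  have hzK : z ∈ K := mid_mem D.conv hx hw
  have h1 : ‖g w - g x‖ ≤ ‖T (g w - g x)‖ := by
    rcases le_max_iff.1 (D.dom _ (D.gK x hx) _ (D.gK w hw)) with h | h
    · exact h
    · exact h.trans (hO.le.trans (D.φ1 _))
  have h2 : ‖T (g z - g x)‖ ≤ ‖w - x‖ / 2 := by
    refine (D.T1 _).trans ?_
    rw [D.iso _ hzK _ hx]
    have : z - x = (1 / 2 : ℝ) • (w - x) := by rw [hz]; module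
    rw [this, norm_smul, Real.norm_of_nonneg (by norm_num)]
    linarith
  have h3 : ‖T (g w - g z)‖ ≤ ‖w - x‖ / 2 := by
    refine (D.T1 _).trans ?_
    rw [D.iso _ hw _ hzK]
    have : w - z = (1 / 2 : ℝ) • (w - x) := by rw [hz]; module
    rw [this, norm_smul, Real.norm_of_nonneg (by norm_num)]
    linarith
  have h4 : T (g z - g x) + T (g w - g z) = T (g w - g x) := by
    rw [← map_add]
    congr 1
    abel
  have h5 : T (g z - g x) = T (g w - g z) := by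
    apply eq_of_norm_le h2 h3
    rw [h4]
    rw [D.iso _ hw _ hx] at h1
    linarith
  rw [map_sub, map_sub] at h5
  have h6 : (2 : ℝ) • T (g z) = T (g x) + T (g w) := by
    rw [two_smul]
    have := sub_eq_sub_iff_add_eq_add.1 h5
    rw [this]
    abel
  rw [← h6, smul_smul]
  norm_num

lemma exists_open (D : Coord K g h T p φ) {x w : E} (hx : x ∈ K) (hw : w ∈ K)
    (hO : p (g w - g x) < φ (T (g w - g x))) : ∃ r : ℝ, 0 < r ∧ ∀ u ∈ K, ‖u - x‖ < r →
      ∀ v ∈ K, ‖v - w‖ < r → p (g v - g u) < φ (T (g v - g u)) := by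
  have h1 : Continuous fun q : E × E => φ (T (q.2 - q.1)) - p (q.2 - q.1) := by
    have := D.pc
    fun_prop
  have h2 : ∀ᶠ q : E × E in 𝓝 (g x, g w), 0 < φ (T (q.2 - q.1)) - p (q.2 - q.1) :=
    h1.continuousAt.eventually_const_lt (by simp only; linarith)
  rw [Metric.eventually_nhds_iff] at h2
  obtain ⟨r, hr, h3⟩ := h2
  refine ⟨r, hr, fun u hu hux v hv hvw => ?_⟩
  have h4 := @h3 (g u, g v) (by
    rw [Prod.dist_eq, dist_eq_norm, dist_eq_norm, max_lt_iff]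
    exact ⟨by rw [D.iso u hu x hx]; exact hux, by rw [D.iso v hv w hw]; exact hvw⟩)
  simp only at h4
  linarith

/-- Local affinity. -/
lemma exists_germ (D : Coord K g h T p φ) {x₀ w₀ : E} (hx₀ : x₀ ∈ K) (hw₀ : w₀ ∈ K)
    (hO : p (g w₀ - g x₀) < φ (T (g w₀ - g x₀))) : ∃ r : ℝ, 0 < r ∧ ∃ A : E → F, MidAff K A ∧
      (∀ y ∈ K, ∀ y' ∈ K, ‖A y - A y'‖ ≤ ‖y - y'‖) ∧ ∀ u ∈ K, ‖u - x₀‖ < r → T (g u) = A u := by
  obtain ⟨r, hr, hU⟩ := D.exists_open hx₀ hw₀ hO
  obtain ⟨R, hR⟩ := D.bdd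
  obtain ⟨n, hn⟩ := exists_nat_gt (R / (r / 2))
  set N : ℝ := (n : ℝ) + 2 with hN
  have hn0 : (0 : ℝ) ≤ n := Nat.cast_nonneg n
  have hNpos : 0 < N := by linarith
  have hRN : R / N < r / 2 := by
    rw [div_lt_iff₀ (by positivity)] at hn ⊢
    nlinarith
  set η : ℝ := 1 / N with hη
  have hηpos : 0 < η := by positivity
  have hη1 : η ≤ 1 / 2 := by
    rw [hη, div_le_div_iff₀ hNpos (by norm_num)]
    linarith
  -- small convex combinations
  let c : E → E → E := fun b y => (1 - η) • b + η • y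
  have hcK : ∀ b ∈ K, ∀ y ∈ K, c b y ∈ K := fun b hb y hy =>
    D.conv hb hy (by linarith) hηpos.le (by ring)
  have hcb : ∀ b ∈ K, ∀ y ∈ K, ‖c b y - b‖ < r / 2 := by
    intro b hb y hy
    have : c b y - b = η • (y - b) := by simp only [c]; module
    rw [this, norm_smul, Real.norm_of_nonneg hηpos.le]
    calc η * ‖y - b‖ ≤ η * R := by gcongr; exact hR y hy b hb
      _ = R / N := by rw [hη]; ring
      _ < r / 2 := hRN
  have hclose : ∀ b ∈ K, ∀ y ∈ K, ∀ b₀, ‖b - b₀‖ < r / 2 → ‖c b y - b₀‖ < r := by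
    intro b hb y hy b₀ hb₀
    calc ‖c b y - b₀‖ = ‖(c b y - b) + (b - b₀)‖ := by congr 1; abel
      _ ≤ ‖c b y - b‖ + ‖b - b₀‖ := norm_add_le _ _
      _ < r := by linarith [hcb b hb y hy]
  have hmid : ∀ u ∈ K, ‖u - x₀‖ < r / 2 → ∀ w ∈ K, ‖w - w₀‖ < r / 2 → ∀ y ∈ K, ∀ y' ∈ K,
      T (g (c ((1 / 2 : ℝ) • (u + w)) ((1 / 2 : ℝ) • (y + y')))) =
        (1 / 2 : ℝ) • (T (g (c u y)) + T (g (c w y'))) := by
    intro u hu hux w hw hww y hy y' hy'
    have h1 := D.mid (hcK u hu y hy) (hcK w hw y' hy') (hU _ (hcK u hu y hy)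
      (hclose u hu y hy _ hux) _ (hcK w hw y' hy') (hclose w hw y' hy' _ hww))
    rw [← h1]
    congr 2
    simp only [c]
    module
  have hswap : ∀ u ∈ K, ‖u - x₀‖ < r / 2 → ∀ w ∈ K, ‖w - w₀‖ < r / 2 → ∀ y ∈ K, ∀ y' ∈ K,
      T (g (c u y)) - T (g (c u y')) = T (g (c w y)) - T (g (c w y')) := by
    intro u hu hux w hw hww y hy y' hy'
    have h1 := hmid u hu hux w hw hww y hy y' hy'
    have h2 := hmid u hu hux w hw hww y' hy' y hy
    rw [add_comm y' y] at h2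
    rw [h1] at h2
    have h3 : T (g (c u y)) + T (g (c w y')) = T (g (c u y')) + T (g (c w y)) :=
      smul_right_injective F (by norm_num : (1 / 2 : ℝ) ≠ 0) h2
    rw [sub_eq_sub_iff_add_eq_add, h3]
    abel
  have hr2 : ∀ b : E, ‖b - b‖ < r / 2 := fun b => by rw [sub_self, norm_zero]; linarith
  let Θ : E → F := fun y => T (g (c w₀ y))
  have hΘ : MidAff K Θ := by
    intro y hy y' hy'
    have hm := mid_mem D.conv hy hy'
    set m : E := (1 / 2 : ℝ) • (y + y') with hmdef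
    have h1 := hmid x₀ hx₀ (hr2 _) w₀ hw₀ (hr2 _) y hy y' hy'
    have h2 := hmid x₀ hx₀ (hr2 _) w₀ hw₀ (hr2 _) m hm m hm
    have h3 : (1 / 2 : ℝ) • (m + m) = m := by module
    rw [h3] at h2
    rw [← hmdef, h2] at h1
    have h4 : T (g (c x₀ m)) + T (g (c w₀ m)) = T (g (c x₀ y)) + T (g (c w₀ y')) :=
      smul_right_injective F (by norm_num : (1 / 2 : ℝ) ≠ 0) h1
    have h5 := hswap x₀ hx₀ (hr2 _) w₀ hw₀ (hr2 _) m hm y hy
    have h6 : T (g (c x₀ m)) - T (g (c x₀ y)) = T (g (c w₀ y')) - T (g (c w₀ m)) := by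
      rw [sub_eq_sub_iff_add_eq_add, h4]
      abel
    rw [h6] at h5
    change T (g (c w₀ m)) = (1 / 2 : ℝ) • (T (g (c w₀ y)) + T (g (c w₀ y')))
    have h7 : (2 : ℝ) • T (g (c w₀ m)) = T (g (c w₀ y)) + T (g (c w₀ y')) := by
      rw [two_smul]
      have := sub_eq_sub_iff_add_eq_add.1 h5
      rw [← this]
      abel
    rw [← h7, smul_smul]
    norm_num
  have hΘlip : ∀ y ∈ K, ∀ y' ∈ K, ‖Θ y - Θ y'‖ ≤ η * ‖y - y'‖ := by
    intro y hy y' hy'
    change ‖T (g (c w₀ y)) - T (g (c w₀ y'))‖ ≤ _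
    rw [← map_sub]
    refine (D.T1 _).trans ?_
    rw [D.iso _ (hcK _ hw₀ _ hy) _ (hcK _ hw₀ _ hy')]
    have : c w₀ y - c w₀ y' = η • (y - y') := by simp only [c]; module
    rw [this, norm_smul, Real.norm_of_nonneg hηpos.le]
  refine ⟨r / 2, by linarith, fun y => N • (Θ y - Θ x₀) + T (g x₀), ?_, ?_, ?_⟩
  · intro y hy y' hy'
    simp only
    rw [hΘ y hy y' hy']
    module
  · intro y hy y' hy'
    have : N • (Θ y - Θ x₀) + T (g x₀) - (N • (Θ y' - Θ x₀) + T (g x₀)) = N • (Θ y - Θ y') := by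
      module
    rw [this, norm_smul, Real.norm_of_nonneg hNpos.le]
    calc N * ‖Θ y - Θ y'‖ ≤ N * (η * ‖y - y'‖) := by gcongr; exact hΘlip y hy y' hy'
      _ = ‖y - y'‖ := by rw [hη]; field_simp
  · intro u hu hux
    simp only
    -- telescoping along the segment
    let q : ℕ → E := fun k => x₀ + ((k : ℝ) / N) • (u - x₀)
    have hstep : ∀ k : ℕ, k < n + 2 → T (g (q (k + 1))) - T (g (q k)) = Θ u - Θ x₀ := by
      intro k hk
      have hk' : (k : ℝ) ≤ n + 1 := by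
        have : k ≤ n + 1 := by omega
        exact_mod_cast this
      set s : ℝ := (k : ℝ) / (n + 1) with hs
      have hs0 : 0 ≤ s := by positivity
      have hs1 : s ≤ 1 := by rw [hs, div_le_one (by positivity)]; exact hk'
      have hck : x₀ + s • (u - x₀) ∈ K := by
        have h1 := D.conv hx₀ hu (show (0 : ℝ) ≤ 1 - s by linarith) hs0 (by ring)
        have h2 : (1 - s) • x₀ + s • u = x₀ + s • (u - x₀) := by module
        rwa [h2] at h1
      have hckx : ‖x₀ + s • (u - x₀) - x₀‖ < r / 2 := by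
        rw [add_sub_cancel_left, norm_smul, Real.norm_of_nonneg hs0]
        calc s * ‖u - x₀‖ ≤ 1 * ‖u - x₀‖ := by gcongr
          _ < r / 2 := by rw [one_mul]; exact hux
      have hkey : (1 - η) * s = (k : ℝ) / N := by
        rw [hη, hs, hN]
        field_simp
        ring
      have h3 : q k = c (x₀ + s • (u - x₀)) x₀ := by
        simp only [q, c]
        rw [← hkey]
        module
      have h4 : q (k + 1) = c (x₀ + s • (u - x₀)) u := by
        simp only [q, c]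
        push_cast
        have : ((k : ℝ) + 1) / N = (1 - η) * s + η := by rw [hkey, hη]; ring
        rw [this]
        module
      rw [h3, h4]
      exact hswap _ hck hckx w₀ hw₀ (hr2 _) u hu x₀ hx₀
    have hsum : ∀ k : ℕ, k ≤ n + 2 → T (g (q k)) = T (g (q 0)) + (k : ℝ) • (Θ u - Θ x₀) := by
      intro k
      induction k with
      | zero => intro _; simp
      | succ k ih =>
        intro hk
        have h1 := hstep k (by omega)
        have h2 := ih (by omega)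
        have h3 : T (g (q (k + 1))) = T (g (q k)) + (Θ u - Θ x₀) := by
          rw [← h1]
          abel
        rw [h3, h2]
        push_cast
        module
    have h1 := hsum (n + 2) le_rfl
    have h2 : q 0 = x₀ := by simp [q]
    have h3 : q (n + 2) = u := by
      simp only [q]
      push_cast
      rw [← hN, div_self hNpos.ne', one_smul]
      abel
    rw [h2, h3] at h1
    rw [h1]
    push_cast
    rw [← hN]
    abel

end Coord

end Pool.Agent.RNP45
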