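import Pool.Agent.LibRNP45.Germ

/-!
# Isometries seen through a strictly convex coordinate: the global statement
-/

open Set Topology Filter

namespace Pool.Agent.RNP45

variable {E : Type*} [NormedAddCommGroup E] [NormedSpace ℝ E]
variable {F : Type*} [NormedAddCommGroup F] [NormedSpace ℝ F] [StrictConvexSpace ℝ F]

namespace Coord

variable {K : Set E} {g h : E → E} {T : E →L[ℝ] F} {p : E → ℝ} {φ : F →L[ℝ] ℝ}

lemma hiso (D : Coord K g h T p φ) {x y : E} (hx : x ∈ K) (hy : y ∈ K) :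
    ‖h x - h y‖ = ‖x - y‖ := by
  rw [← D.iso _ (D.hK x hx) _ (D.hK y hy), D.gh x hx, D.gh y hy]

theorem midAff (D : Coord K g h T p φ) : MidAff K fun x => T (g x) := by
  classical
  obtain ⟨a₀, ha₀, b₀, hb₀, hab⟩ := D.ne
  set v : E := b₀ - a₀ with hv
  -- the convex set of good points of the target
  let P : Set E := {a | a ∈ K ∧ ∃ t : ℝ, 0 < t ∧ a + t • v ∈ K}
  have hPconv : ∀ a ∈ P, ∀ b ∈ P, ∀ s : ℝ, 0 ≤ s → s ≤ 1 → a + s • (b - a) ∈ P := by
    rintro a ⟨ha, t, ht, hat⟩ b ⟨hb, u, hu, hbu⟩ s hs0 hs1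
    have e : a + s • (b - a) = (1 - s) • a + s • b := by module
    rw [e]
    refine ⟨D.conv ha hb (by linarith) hs0 (by ring), (1 - s) * t + s * u, ?_, ?_⟩
    · rcases hs0.eq_or_lt with h0 | h0
      · rw [← h0]; simpa using ht
      · have h1 : 0 < s * u := by positivity
        have h2 : 0 ≤ (1 - s) * t := mul_nonneg (by linarith) ht.le
        linarith
    · have h1 := D.conv hat hbu (show (0 : ℝ) ≤ 1 - s by linarith) hs0 (by ring)
      have h2 : (1 - s) • (a + t • v) + s • (b + u • v) =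
          (1 - s) • a + s • b + ((1 - s) * t + s * u) • v := by module
      rwa [h2] at h1
  have hgerm : ∀ a : E, a ∈ P → ∃ r : ℝ, 0 < r ∧ ∃ A : E → F, MidAff K A ∧
      (∀ y ∈ K, ∀ y' ∈ K, ‖A y - A y'‖ ≤ ‖y - y'‖) ∧
      ∀ u ∈ K, ‖u - h a‖ < r → T (g u) = A u := by
    rintro a ⟨ha, t, ht, hat⟩
    apply D.exists_germ (D.hK a ha) (D.hK _ hat)
    rw [D.gh a ha, D.gh _ hat, add_sub_cancel_left, map_smul, map_smul, D.psmul t v ht,
      smul_eq_mul]
    exact mul_lt_mul_of_pos_left hab ht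
  choose! r hr A hA hlip hgerm using hgerm
  have ha₀P : a₀ ∈ P := ⟨ha₀, 1, one_pos, by rw [one_smul, hv]; simpa using hb₀⟩
  -- the germ does not depend on the point
  have hloc : ∀ a ∈ P, ∀ b ∈ P, ‖b - a‖ < r a → ∀ x ∈ K, A b x = A a x := by
    intro a ha b hb hba x hx
    have h1 : ‖h b - h a‖ < r a := by rwa [D.hiso hb.1 ha.1]
    refine MidAff.eq_of_germ D.conv (hA b hb) (hA a ha) (D.hK b hb.1)
      (ρ := min (r b) (r a - ‖h b - h a‖)) (lt_min (hr b hb) (by linarith)) ?_ hx
    intro u hu hub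
    rw [← hgerm b hb u hu (hub.trans_le (min_le_left _ _)), ← hgerm a ha u hu]
    calc ‖u - h a‖ = ‖(u - h b) + (h b - h a)‖ := by congr 1; abel
      _ ≤ ‖u - h b‖ + ‖h b - h a‖ := norm_add_le _ _
      _ < r a := by linarith [hub.trans_le (min_le_right _ _)]
  have hconst : ∀ a ∈ P, ∀ x ∈ K, A a x = A a₀ x := by
    intro a ha x hx
    let γ : unitInterval → E := fun s => a₀ + (s : ℝ) • (a - a₀)
    have hγ : ∀ s, γ s ∈ P := fun s => hPconv a₀ ha₀P a ha s s.2.1 s.2.2
    have hγc : Continuous γ := by fun_prop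
    have hlc : IsLocallyConstant fun s => A (γ s) x := by
      rw [IsLocallyConstant.iff_eventually_eq]
      intro s
      have h1 : ∀ᶠ s' in 𝓝 s, ‖γ s' - γ s‖ < r (γ s) := by
        have h2 : Tendsto (fun s' => ‖γ s' - γ s‖) (𝓝 s) (𝓝 0) := by
          have := (hγc.tendsto s)
          rwa [tendsto_iff_norm_sub_tendsto_zero] at this
        exact h2.eventually (gt_mem_nhds (hr _ (hγ s)))
      filter_upwards [h1] with s' hs'
      exact hloc _ (hγ s) _ (hγ s') hs' x hx
    have h3 := hlc.apply_eq_of_preconnectedSpace (1 : unitInterval) (0 : unitInterval)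
    simp only [γ, Set.Icc.coe_one, Set.Icc.coe_zero, one_smul, zero_smul, add_zero] at h3
    have h4 : a₀ + (a - a₀) = a := by abel
    rwa [h4] at h3
  -- the map is the common affine map
  have hall : ∀ x ∈ K, T (g x) = A a₀ x := by
    intro x hx
    have hgx := D.gK x hx
    -- approximate `g x` by points of `P`
    have happ : ∀ s : ℝ, 0 < s → s ≤ 1 → g x + s • (a₀ - g x) ∈ P := by
      intro s hs0 hs1
      have e : g x + s • (a₀ - g x) = (1 - s) • g x + s • a₀ := by module
      refine ⟨?_, s, hs0, ?_⟩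
      · rw [e]
        exact D.conv hgx ha₀ (by linarith) hs0.le (by ring)
      · have h1 := D.conv hgx hb₀ (show (0 : ℝ) ≤ 1 - s by linarith) hs0.le (by ring)
        have h2 : (1 - s) • g x + s • b₀ = g x + s • (a₀ - g x) + s • v := by rw [hv]; module
        rwa [h2] at h1
    by_contra hne
    have hpos : 0 < ‖T (g x) - A a₀ x‖ := norm_pos_iff.2 (sub_ne_zero.2 hne)
    set δ : ℝ := ‖T (g x) - A a₀ x‖ with hδ
    set B : ℝ := ‖a₀ - g x‖ + 1 with hB
    have hBpos : 0 < B := by positivity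
    set s : ℝ := min 1 (δ / (4 * B)) with hs
    have hs0 : 0 < s := lt_min one_pos (by positivity)
    have hs1 : s ≤ 1 := min_le_left _ _
    have hsB : s * B ≤ δ / 4 := by
      have : s ≤ δ / (4 * B) := min_le_right _ _
      rw [le_div_iff₀ (by positivity)] at this
      linarith
    have haP := happ s hs0 hs1
    set a : E := g x + s • (a₀ - g x) with ha
    have hax : ‖a - g x‖ ≤ δ / 4 := by
      rw [ha, add_sub_cancel_left, norm_smul, Real.norm_of_nonneg hs0.le]
      refine le_trans ?_ hsB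
      gcongr
      rw [hB]
      linarith
    have h1 : T (g (h a)) = A a₀ (h a) := by
      rw [hgerm a haP (h a) (D.hK a haP.1) (by simpa using hr a haP)]
      exact hconst a haP _ (D.hK a haP.1)
    rw [D.gh a haP.1] at h1
    have h2 : ‖T (g x) - T a‖ ≤ δ / 4 := by
      rw [← map_sub]
      refine (D.T1 _).trans ?_
      rw [norm_sub_rev]
      exact hax
    have h3 : ‖A a₀ (h a) - A a₀ x‖ ≤ δ / 4 := by
      refine (hlip a₀ ha₀P _ (D.hK a haP.1) _ hx).trans ?_
      have : x = h (g x) := (D.hg x hx).symm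
      nth_rewrite 1 [this]
      rw [D.hiso haP.1 hgx]
      exact hax
    have h4 : ‖T (g x) - A a₀ x‖ ≤ ‖T (g x) - T a‖ + ‖A a₀ (h a) - A a₀ x‖ := by
      calc ‖T (g x) - A a₀ x‖ = ‖(T (g x) - T a) + (A a₀ (h a) - A a₀ x)‖ := by
            congr 1
            rw [← h1]
            abel
        _ ≤ _ := norm_add_le _ _
    linarith
  intro x hx y hy
  simp only
  rw [hall _ (mid_mem D.conv hx hy), hall x hx, hall y hy]
  exact hA a₀ ha₀P x hx y hy

end Coord

end Pool.Agent.RNP45
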