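import Pool.Agent.LibRNP45.Dent

/-!
# Reflexive spaces: bounded closed convex sets are weakly compact
-/

open Set Topology

namespace Pool.Agent.RNP45

variable {E : Type*} [NormedAddCommGroup E] [NormedSpace ℝ E]

theorem weaklyCompact_of_reflexive
    (h : Function.Surjective (NormedSpace.inclusionInDoubleDual ℝ E)) {C : Set E}
    (hcl : IsClosed C) (hb : Bornology.IsBounded C) (hconv : Convex ℝ C) :
    LRFix.WeaklyCompact C := by
  have hS : closure (toWeakSpace ℝ E '' C) = toWeakSpace ℝ E '' C := by
    have h1 := hconv.toWeakSpace_closure (𝕜 := ℝ)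
    rw [hcl.closure_eq] at h1
    exact h1.symm
  have hpre : (toWeakSpace ℝ E) ⁻¹' (toWeakSpace ℝ E '' C) = C :=
    Set.preimage_image_eq C (toWeakSpace ℝ E).injective
  have hrange : Set.range (NormedSpace.inclusionInDoubleDualWeak ℝ E) = Set.univ := by
    rw [Set.eq_univ_iff_forall]
    intro f
    obtain ⟨x, hx⟩ := h (WeakDual.toStrongDual f)
    refine ⟨toWeakSpace ℝ E x, ?_⟩
    apply WeakDual.toStrongDual.injective
    rw [← hx]
    ext φ
    rfl
  have h2 := NormedSpace.isCompact_closure_of_isBounded ℝ E (toWeakSpace ℝ E '' C)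
    (by rw [hpre]; exact hb) (by rw [hrange]; exact Set.subset_univ _)
  rw [hS] at h2
  exact h2

/-- Reflexive spaces have the Radon-Nikodym property. -/
theorem rnp_of_reflexive
    (h : Function.Surjective (NormedSpace.inclusionInDoubleDual ℝ E)) : RNP E := by
  intro C hne hcl hb hconv
  exact dentable_of_weaklyCompact (weaklyCompact_of_reflexive h hcl hb hconv) hne hconv

end Pool.Agent.RNP45
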