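import Pool.Agent.LibRNP45.Glob

/-!
# Isometries of bounded convex sets of continuous functions on scattered compact spaces
-/

open Set Topology Filter

namespace Pool.Agent.RNP45

variable {E : Type*} [NormedAddCommGroup E] [NormedSpace ℝ E]
variable {F : Type*} [NormedAddCommGroup F] [NormedSpace ℝ F]
variable {X : Type*} [TopologicalSpace X]

/-- Every nonempty subset has an isolated point. -/
def Scattered (X : Type*) [TopologicalSpace X] : Prop :=
  ∀ Y : Set X, Y.Nonempty → ∃ y ∈ Y, ∃ U : Set X, IsOpen U ∧ y ∈ U ∧ ∀ z ∈ U ∩ Y, z = y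

variable [CompactSpace X]

/-- The set `Y` is norming for the differences of points of `K`. -/
def Norming (J : E →ₗᵢ[ℝ] C(X, F)) (K : Set E) (Y : Set X) : Prop :=
  ∀ a ∈ K, ∀ b ∈ K, a ≠ b → ∃ x ∈ Y, ‖J (b - a) x‖ = ‖b - a‖

lemma norming_univ (J : E →ₗᵢ[ℝ] C(X, F)) (K : Set E) : Norming J K univ := by
  intro a _ b _ hab
  have hpos : 0 < ‖b - a‖ := norm_pos_iff.2 (sub_ne_zero.2 (Ne.symm hab))
  by_contra hcon
  push Not at hcon
  have h1 : ‖J (b - a)‖ < ‖b - a‖ := by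
    rw [ContinuousMap.norm_lt_iff _ hpos]
    intro x
    refine lt_of_le_of_ne ?_ (hcon x (mem_univ x))
    rw [← J.norm_map]
    exact ContinuousMap.norm_coe_le_norm _ x
  rw [J.norm_map] at h1
  exact lt_irrefl _ h1

lemma exists_minimal_norming (J : E →ₗᵢ[ℝ] C(X, F)) (K : Set E) :
    ∃ Y : Set X, Minimal (· ∈ {Y : Set X | IsClosed Y ∧ Norming J K Y}) Y := by
  apply zorn_superset
  intro c hc hchain
  refine ⟨⋂₀ c, ⟨isClosed_sInter fun Y hY => (hc hY).1, ?_⟩, fun Y hY => sInter_subset_of_mem hY⟩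
  intro a ha b hb hab
  rcases c.eq_empty_or_nonempty with hce | hce
  · rw [hce, sInter_empty]
    exact norming_univ J K a ha b hb hab
  have hcne : Nonempty c := hce.to_subtype
  set Z : Set X := {x | ‖J (b - a) x‖ = ‖b - a‖} with hZ
  have hZc : IsClosed Z := isClosed_eq (J (b - a)).continuous.norm continuous_const
  have h1 : (⋂ Y : c, (Y : Set X) ∩ Z).Nonempty := by
    apply IsCompact.nonempty_iInter_of_directed_nonempty_isCompact_isClosed
    · intro Y Y'
      rcases hchain.total Y.2 Y'.2 with h | h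
      · exact ⟨Y, subset_rfl, inter_subset_inter_left _ h⟩
      · exact ⟨Y', inter_subset_inter_left _ h, subset_rfl⟩
    · intro Y
      obtain ⟨x, hx, hxe⟩ := (hc Y.2).2 a ha b hb hab
      exact ⟨x, hx, hxe⟩
    · intro Y
      exact ((hc Y.2).1.inter hZc).isCompact
    · intro Y
      exact (hc Y.2).1.inter hZc
  obtain ⟨x, hx⟩ := h1
  rw [mem_iInter] at hx
  exact ⟨x, mem_sInter.2 fun Y hY => (hx ⟨Y, hY⟩).1, (hx hcne.some).2⟩

variable [StrictConvexSpace ℝ F]

/-- The midpoint property at the isolated points of a minimal norming set. -/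
lemma midAff_isolated (J : E →ₗᵢ[ℝ] C(X, F)) {K : Set E} {g h : E → E} (hconv : Convex ℝ K)
    (hbdd : ∃ R : ℝ, ∀ x ∈ K, ∀ y ∈ K, ‖x - y‖ ≤ R)
    (gK : ∀ x ∈ K, g x ∈ K) (hK : ∀ x ∈ K, h x ∈ K)
    (iso : ∀ x ∈ K, ∀ y ∈ K, ‖g x - g y‖ = ‖x - y‖)
    (hg : ∀ x ∈ K, h (g x) = x) (gh : ∀ x ∈ K, g (h x) = x) {Y : Set X}
    (hY : Minimal (· ∈ {Y : Set X | IsClosed Y ∧ Norming J K Y}) Y) {y : X} (hyY : y ∈ Y)
    {U : Set X} (hU : IsOpen U) (hyU : y ∈ U) (hUY : ∀ z ∈ U ∩ Y, z = y) :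
    MidAff K fun x => J (g x) y := by
  obtain ⟨⟨hYc, hYn⟩, hYmin⟩ := hY
  -- the rest of the norming set
  set Z : Set X := Y \ U with hZ
  have hZc : IsClosed Z := hYc.sdiff hU
  have hZcomp : CompactSpace Z := isCompact_iff_compactSpace.1 hZc.isCompact
  have hZnot : ¬ Norming J K Z := by
    intro hcon
    have h1 := hYmin (y := Z) ⟨hZc, hcon⟩ sdiff_subset hyY
    exact h1.2 hyU
  unfold Norming at hZnot
  push Not at hZnot
  obtain ⟨a, ha, b, hb, hab, hne⟩ := hZnot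
  have hpos : 0 < ‖b - a‖ := norm_pos_iff.2 (sub_ne_zero.2 (Ne.symm hab))
  obtain ⟨φ, hφ1, hφ⟩ := exists_dual_vector'' ℝ (J (b - a) y)
  let T : E →L[ℝ] F :=
    (ContinuousMap.evalCLM ℝ y).comp J.toContinuousLinearMap
  have hT : ∀ v, T v = J v y := fun v => rfl
  let p : E → ℝ := fun v => ‖(J v).restrict Z‖
  have hyn : ‖J (b - a) y‖ = ‖b - a‖ := by
    obtain ⟨x, hx, hxe⟩ := hYn a ha b hb hab
    by_cases hxU : x ∈ U
    · rw [hUY x ⟨hxU, hx⟩] at hxe
      exact hxe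
    · exact absurd hxe (hne x ⟨hx, hxU⟩)
  have D : Coord K g h T p φ := by
    refine ⟨hconv, hbdd, gK, hK, iso, hg, gh, ?_, ?_, ?_, ?_, ?_, ?_⟩
    · intro v
      rw [hT, ← J.norm_map]
      exact ContinuousMap.norm_coe_le_norm _ y
    · intro f
      refine (le_abs_self _).trans ((φ.le_opNorm f).trans ?_)
      calc ‖φ‖ * ‖f‖ ≤ 1 * ‖f‖ := by gcongr
        _ = ‖f‖ := one_mul _
    · exact ((ContinuousMap.continuous_restrict Z).comp J.continuous).norm
    · intro c v hc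
      have h1 : (J (c • v)).restrict Z = c • (J v).restrict Z := by
        ext x
        simp
      simp only [p]
      rw [h1, norm_smul, Real.norm_of_nonneg hc.le]
    · intro x hx w hw
      rcases eq_or_ne x w with rfl | hxw
      · rw [sub_self, norm_zero]
        exact le_max_of_le_left (norm_nonneg _)
      obtain ⟨z, hz, hze⟩ := hYn x hx w hw hxw
      by_cases hzU : z ∈ U
      · have h1 := hUY z ⟨hzU, hz⟩
        rw [h1] at hze
        apply le_max_of_le_left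
        rw [hT, hze]
      · apply le_max_of_le_right
        rw [← hze]
        exact ContinuousMap.norm_coe_le_norm ((J (w - x)).restrict Z) ⟨z, hz, hzU⟩
    · refine ⟨a, ha, b, hb, ?_⟩
      have h1 : φ (T (b - a)) = ‖b - a‖ := by
        rw [hT, hφ, hyn]
        rfl
      rw [h1]
      simp only [p]
      rw [ContinuousMap.norm_lt_iff _ hpos]
      rintro ⟨x, hx⟩
      refine lt_of_le_of_ne ?_ (hne x hx)
      rw [← J.norm_map]
      exact ContinuousMap.norm_coe_le_norm _ x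
  exact D.midAff

/-- Surjective isometries of bounded convex sets of `F`-valued functions on a scattered compact
space are midpoint affine, if `F` is strictly convex. -/
theorem midpoint_of_scattered (hX : Scattered X) (J : E →ₗᵢ[ℝ] C(X, F)) {K : Set E}
    {g h : E → E} (hconv : Convex ℝ K) (hbdd : ∃ R : ℝ, ∀ x ∈ K, ∀ y ∈ K, ‖x - y‖ ≤ R)
    (gK : ∀ x ∈ K, g x ∈ K) (hK : ∀ x ∈ K, h x ∈ K)
    (iso : ∀ x ∈ K, ∀ y ∈ K, ‖g x - g y‖ = ‖x - y‖)
    (hg : ∀ x ∈ K, h (g x) = x) (gh : ∀ x ∈ K, g (h x) = x) {x y : E} (hx : x ∈ K)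
    (hy : y ∈ K) : g ((1 / 2 : ℝ) • (x + y)) = (1 / 2 : ℝ) • (g x + g y) := by
  obtain ⟨Y, hY⟩ := exists_minimal_norming J K
  by_contra hne
  obtain ⟨z, hzY, hz⟩ := hY.1.2 _ (mid_mem hconv (gK x hx) (gK y hy)) _
    (gK _ (mid_mem hconv hx hy)) (Ne.symm hne)
  set w : E := g ((1 / 2 : ℝ) • (x + y)) - (1 / 2 : ℝ) • (g x + g y) with hw
  have hwpos : 0 < ‖w‖ := norm_pos_iff.2 (sub_ne_zero.2 hne)
  -- the difference does not vanish near `z`, but it vanishes at the isolated points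
  set V : Set X := {x | J w x ≠ 0} with hV
  have hVo : IsOpen V := isOpen_ne_fun (J w).continuous continuous_const
  have hzV : z ∈ V := by
    intro h0
    rw [h0, norm_zero] at hz
    exact hwpos.ne hz
  obtain ⟨t, ⟨htV, htY⟩, U, hU, htU, hiso⟩ := hX (V ∩ Y) ⟨z, hzV, hzY⟩
  have h1 := midAff_isolated J hconv hbdd gK hK iso hg gh hY htY (hU.inter hVo) ⟨htU, htV⟩
    (fun s hs => hiso s ⟨hs.1.1, hs.1.2, hs.2⟩) x hx y hy
  apply htV
  rw [hw, map_sub, map_smul, map_add]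
  simp only at h1
  rw [ContinuousMap.sub_apply, ContinuousMap.smul_apply, ContinuousMap.add_apply, h1, sub_self]

end Pool.Agent.RNP45
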