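import Pool.Agent.LibRNP45.Defs

/-!
# Stable sets of displacement vectors
-/

open Set Topology

namespace Pool.Agent.RNP45

variable {E : Type*} [NormedAddCommGroup E] [NormedSpace ℝ E]

/-- The maps `f i` are isometric self-maps of `K`. -/
structure Isos {ι : Type*} (K : Set E) (f : ι → E → E) : Prop where
  maps : ∀ i, ∀ x ∈ K, f i x ∈ K
  iso : ∀ i, ∀ x ∈ K, ∀ y ∈ K, ‖f i x - f i y‖ = ‖x - y‖

/-- Stable sets: if a displacement of `K` is in `D` (after rescaling), so are its images. -/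
def Stable {ι : Type*} (K : Set E) (f : ι → E → E) (D : Set E) : Prop :=
  ∀ i, ∀ x ∈ K, ∀ y ∈ K, ∀ r : ℝ, 0 < r → r • (x - y) ∈ D → r • (f i x - f i y) ∈ D

/-- Displacements of `K` up to scaling. -/
def Wd (K : Set E) : Set E := {v | ∃ r : ℝ, 0 < r ∧ ∃ x ∈ K, ∃ y ∈ K, v = r • (x - y)}

/-- Vectors all of whose small moves are in `C`. -/
def Good {ι : Type*} (K : Set E) (f : ι → E → E) (C : Set E) (v : E) : Prop :=
  ∃ p ∈ K, ∃ s₀ : ℝ, 0 < s₀ ∧ ∀ q ∈ K, ∀ η : ℝ, 0 < η → η ≤ 1 → ∀ s : ℝ, 0 < s → s ≤ η * s₀ →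
    (1 - η) • q + η • p + s • v ∈ K ∧
    ∀ i, s⁻¹ • (f i ((1 - η) • q + η • p + s • v) - f i ((1 - η) • q + η • p)) ∈ C

lemma good_convex {ι : Type*} {K : Set E} {f : ι → E → E} {C : Set E} (hK : Convex ℝ K)
    (hC : Convex ℝ C) : Convex ℝ {v | Good K f C v} := by
  rintro v₁ ⟨p₁, hp₁, s₁, hs₁, h₁⟩ v₂ ⟨p₂, hp₂, s₂, hs₂, h₂⟩ a b ha hb hab
  rcases ha.eq_or_lt with ha0 | ha0
  · have hb1 : b = 1 := by linarith
    subst hb1
    rw [← ha0, zero_smul, zero_add, one_smul]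
    exact ⟨p₂, hp₂, s₂, hs₂, h₂⟩
  rcases hb.eq_or_lt with hb0 | hb0
  · have ha1 : a = 1 := by linarith
    subst ha1
    rw [← hb0, zero_smul, add_zero, one_smul]
    exact ⟨p₁, hp₁, s₁, hs₁, h₁⟩
  have hmin : 0 < min s₁ s₂ := lt_min hs₁ hs₂
  refine ⟨(1 / 2 : ℝ) • p₁ + (1 / 2 : ℝ) • p₂, hK hp₁ hp₂ (by norm_num) (by norm_num)
    (by norm_num), min s₁ s₂ / 2, by linarith, ?_⟩
  intro q hq η hη hη1 s hs hsη
  have hη2 : 0 < 1 - η / 2 := by linarith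
  have hm1 : min s₁ s₂ ≤ s₁ := min_le_left _ _
  have hm2 : min s₁ s₂ ≤ s₂ := min_le_right _ _
  have hsm : s ≤ η / 2 * min s₁ s₂ := by linarith
  have hs1' : s ≤ η / 2 * s₁ := hsm.trans (by gcongr)
  have hs2' : s ≤ η / 2 * s₂ := hsm.trans (by gcongr)
  set b₀ : E := (1 - η) • q + η • ((1 / 2 : ℝ) • p₁ + (1 / 2 : ℝ) • p₂) with hb₀
  -- first step
  set q₁ : E := ((1 - η) / (1 - η / 2)) • q + ((η / 2) / (1 - η / 2)) • p₂ with hq₁
  have hq₁K : q₁ ∈ K := by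
    refine hK hq hp₂ (by apply div_nonneg <;> linarith) (by positivity) ?_
    rw [← add_div, div_eq_one_iff_eq hη2.ne']
    ring
  have hbase₁ : b₀ = (1 - η / 2) • q₁ + (η / 2) • p₁ := by
    rw [hb₀, hq₁]
    simp only [smul_add, smul_smul]
    have h3 : η * (1 / 2) = η / 2 := by ring
    have h4 : (1 - η / 2) * ((1 - η) / (1 - η / 2)) = 1 - η := mul_div_cancel₀ _ hη2.ne'
    have h5 : (1 - η / 2) * (η / 2 / (1 - η / 2)) = η / 2 := mul_div_cancel₀ _ hη2.ne'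
    rw [h3, h4, h5]
    abel
  have hstep₁ := h₁ q₁ hq₁K (η / 2) (by linarith) (by linarith) (s * a) (by positivity)
    ((mul_le_of_le_one_right hs.le (by linarith)).trans hs1')
  rw [← hbase₁] at hstep₁
  -- second step
  have hp₁' : p₁ + (2 * (s * a) / η) • v₁ ∈ K := by
    have h := (h₁ p₁ hp₁ 1 one_pos le_rfl (2 * (s * a) / η) (by positivity) (by
      rw [one_mul, div_le_iff₀ hη]
      have : s * a ≤ s := mul_le_of_le_one_right hs.le (by linarith)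
      nlinarith)).1
    rw [sub_self, zero_smul, zero_add, one_smul] at h
    exact h
  set q₂ : E := ((1 - η) / (1 - η / 2)) • q +
    ((η / 2) / (1 - η / 2)) • (p₁ + (2 * (s * a) / η) • v₁) with hq₂
  have hq₂K : q₂ ∈ K := by
    refine hK hq hp₁' (by apply div_nonneg <;> linarith) (by positivity) ?_
    rw [← add_div, div_eq_one_iff_eq hη2.ne']
    ring
  have hbase₂ : b₀ + (s * a) • v₁ = (1 - η / 2) • q₂ + (η / 2) • p₂ := by
    rw [hb₀, hq₂]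
    simp only [smul_add, smul_smul]
    have h3 : η * (1 / 2) = η / 2 := by ring
    have h4 : (1 - η / 2) * ((1 - η) / (1 - η / 2)) = 1 - η := mul_div_cancel₀ _ hη2.ne'
    have h5 : (1 - η / 2) * (η / 2 / (1 - η / 2)) = η / 2 := mul_div_cancel₀ _ hη2.ne'
    have h6 : (1 - η / 2) * (η / 2 / (1 - η / 2) * (2 * (s * a) / η)) = s * a := by
      rw [← mul_assoc, h5]
      field_simp
    rw [h3, h4, h5, h6]
    abel
  have hstep₂ := h₂ q₂ hq₂K (η / 2) (by linarith) (by linarith) (s * b) (by positivity)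
    ((mul_le_of_le_one_right hs.le (by linarith)).trans hs2')
  rw [← hbase₂] at hstep₂
  have hend : b₀ + s • (a • v₁ + b • v₂) = b₀ + (s * a) • v₁ + (s * b) • v₂ := by
    rw [smul_add, smul_smul, smul_smul, ← add_assoc]
  rw [hend]
  refine ⟨hstep₂.1, fun i => ?_⟩
  have h5 := hC (hstep₁.2 i) (hstep₂.2 i) ha hb hab
  have h6 : a • ((s * a)⁻¹ • (f i (b₀ + (s * a) • v₁) - f i b₀)) +
      b • ((s * b)⁻¹ • (f i (b₀ + (s * a) • v₁ + (s * b) • v₂) - f i (b₀ + (s * a) • v₁))) =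
      s⁻¹ • (f i (b₀ + (s * a) • v₁ + (s * b) • v₂) - f i b₀) := by
    rw [smul_smul, smul_smul]
    have h7 : a * (s * a)⁻¹ = s⁻¹ := by field_simp
    have h8 : b * (s * b)⁻¹ = s⁻¹ := by field_simp
    rw [h7, h8, ← smul_add]
    congr 1
    abel
  rw [h6] at h5
  exact h5

lemma good_midpoint {ι : Type*} {K : Set E} {f : ι → E → E} (hf : Isos K f) (hK : Convex ℝ K)
    {D : Set E} (hD : Stable K f D) {ε : ℝ} {a b : E} (ha : a ∈ D) (haW : a ∈ Wd K)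
    (hb : b ∈ D) (hbW : b ∈ Wd K) (hab : ε ≤ ‖a - b‖) :
    Good K f {z | ∃ a ∈ D, a ∈ Wd K ∧ ∃ b ∈ D, b ∈ Wd K ∧ ε ≤ ‖a - b‖ ∧
      z = (1 / 2 : ℝ) • (a + b)} ((1 / 2 : ℝ) • (a + b)) := by
  obtain ⟨ra, hra, xa, hxa, ya, hya, hav⟩ := haW
  obtain ⟨rb, hrb, xb, hxb, yb, hyb, hbv⟩ := hbW
  have hmin : 0 < min (1 / ra) (1 / rb) := lt_min (by positivity) (by positivity)
  refine ⟨(1 / 2 : ℝ) • ya + (1 / 2 : ℝ) • yb, hK hya hyb (by norm_num) (by norm_num)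
    (by norm_num), min (1 / ra) (1 / rb), hmin, ?_⟩
  intro q hq η hη hη1 s hs hsη
  set b₀ : E := (1 - η) • q + η • ((1 / 2 : ℝ) • ya + (1 / 2 : ℝ) • yb) with hb₀
  -- feasibility
  have hyaf : ∀ t : ℝ, 0 ≤ t → t ≤ s / η → ya + t • a ∈ K := by
    intro t ht hts
    have h1 : t ≤ 1 / ra := by
      have : s / η ≤ min (1 / ra) (1 / rb) := by
        rw [div_le_iff₀ hη]; linarith [hsη]
      exact hts.trans (this.trans (min_le_left _ _))
    have h2 : t * ra ≤ 1 := by rwa [le_div_iff₀ hra] at h1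
    have h3 := hK hya hxa (show (0 : ℝ) ≤ 1 - t * ra by linarith) (by positivity)
      (by ring : (1 - t * ra) + t * ra = 1)
    have h4 : ya + t • a = (1 - t * ra) • ya + (t * ra) • xa := by
      rw [hav, smul_smul, smul_sub, sub_smul, one_smul]
      abel
    rw [h4]
    exact h3
  have hybf : ∀ t : ℝ, 0 ≤ t → t ≤ s / η → yb + t • b ∈ K := by
    intro t ht hts
    have h1 : t ≤ 1 / rb := by
      have : s / η ≤ min (1 / ra) (1 / rb) := by
        rw [div_le_iff₀ hη]; linarith [hsη]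
      exact hts.trans (this.trans (min_le_right _ _))
    have h2 : t * rb ≤ 1 := by rwa [le_div_iff₀ hrb] at h1
    have h3 := hK hyb hxb (show (0 : ℝ) ≤ 1 - t * rb by linarith) (by positivity)
      (by ring : (1 - t * rb) + t * rb = 1)
    have h4 : yb + t • b = (1 - t * rb) • yb + (t * rb) • xb := by
      rw [hbv, smul_smul, smul_sub, sub_smul, one_smul]
      abel
    rw [h4]
    exact h3
  have hmem : ∀ α β : ℝ, 0 ≤ α → α ≤ s / η → 0 ≤ β → β ≤ s / η →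
      b₀ + (η / 2 * α) • a + (η / 2 * β) • b ∈ K := by
    intro α β h1 h2 h3 h4
    have h5 := hK (hyaf α h1 h2) (hybf β h3 h4) (show (0 : ℝ) ≤ 1 / 2 by norm_num)
      (show (0 : ℝ) ≤ 1 / 2 by norm_num) (by norm_num)
    have h6 := hK hq h5 (show (0 : ℝ) ≤ 1 - η by linarith) hη.le (by ring)
    have h7 : b₀ + (η / 2 * α) • a + (η / 2 * β) • b = (1 - η) • q +
        η • ((1 / 2 : ℝ) • (ya + α • a) + (1 / 2 : ℝ) • (yb + β • b)) := by
      rw [hb₀]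
      simp only [smul_add, smul_smul]
      have e1 : η / 2 * α = η * (1 / 2 * α) := by ring
      have e2 : η / 2 * β = η * (1 / 2 * β) := by ring
      rw [e1, e2]
      abel
    rw [h7]
    exact h6
  have hsη0 : 0 ≤ s / η := by positivity
  have hσ : η / 2 * (s / η) = s / 2 := by field_simp
  have hP0 : b₀ ∈ K := by
    have := hmem 0 0 le_rfl hsη0 le_rfl hsη0
    simpa using this
  have hPa : b₀ + (s / 2) • a ∈ K := by
    have := hmem (s / η) 0 hsη0 le_rfl le_rfl hsη0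
    rw [hσ] at this
    simpa using this
  have hPb : b₀ + (s / 2) • b ∈ K := by
    have := hmem 0 (s / η) le_rfl hsη0 hsη0 le_rfl
    rw [hσ] at this
    simpa using this
  have hPs : b₀ + (s / 2) • a + (s / 2) • b ∈ K := by
    have := hmem (s / η) (s / η) hsη0 le_rfl hsη0 le_rfl
    rwa [hσ] at this
  have hend : b₀ + s • ((1 / 2 : ℝ) • (a + b)) = b₀ + (s / 2) • a + (s / 2) • b := by
    rw [smul_smul, smul_add]
    have : s * (1 / 2) = s / 2 := by ring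
    rw [this, ← add_assoc]
  rw [hend]
  refine ⟨hPs, fun i => ?_⟩
  set P0 := f i b₀ with hP0'
  set Pa := f i (b₀ + (s / 2) • a) with hPa'
  set Pb := f i (b₀ + (s / 2) • b) with hPb'
  set Ps := f i (b₀ + (s / 2) • a + (s / 2) • b) with hPs'
  have hs2 : (0 : ℝ) < (s / 2)⁻¹ := by positivity
  have hcan : ∀ w : E, (s / 2)⁻¹ • ((s / 2) • w) = w := by
    intro w
    rw [smul_smul, inv_mul_cancel₀ (by positivity), one_smul]
  have hWmem : ∀ x ∈ K, ∀ y ∈ K, (s / 2)⁻¹ • (f i x - f i y) ∈ Wd K := by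
    intro x hx y hy
    exact ⟨_, hs2, _, hf.maps i x hx, _, hf.maps i y hy, rfl⟩
  -- the four vectors
  have hA1 : (s / 2)⁻¹ • (Pa - P0) ∈ D := by
    apply hD i _ hPa _ hP0 _ hs2
    rw [add_sub_cancel_left, hcan]
    exact ha
  have hA2 : (s / 2)⁻¹ • (Ps - Pa) ∈ D := by
    apply hD i _ hPs _ hPa _ hs2
    rw [add_sub_cancel_left, hcan]
    exact hb
  have hB1 : (s / 2)⁻¹ • (Pb - P0) ∈ D := by
    apply hD i _ hPb _ hP0 _ hs2
    rw [add_sub_cancel_left, hcan]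
    exact hb
  have hB2 : (s / 2)⁻¹ • (Ps - Pb) ∈ D := by
    apply hD i _ hPs _ hPb _ hs2
    have : b₀ + (s / 2) • a + (s / 2) • b - (b₀ + (s / 2) • b) = (s / 2) • a := by abel
    rw [this, hcan]
    exact ha
  have hgap : 2 * ε ≤ ‖(s / 2)⁻¹ • (Pa - P0) - (s / 2)⁻¹ • (Ps - Pa)‖ +
      ‖(s / 2)⁻¹ • (Pb - P0) - (s / 2)⁻¹ • (Ps - Pb)‖ := by
    have h1 : ((s / 2)⁻¹ • (Pa - P0) - (s / 2)⁻¹ • (Ps - Pa)) -
        ((s / 2)⁻¹ • (Pb - P0) - (s / 2)⁻¹ • (Ps - Pb)) = (2 * (s / 2)⁻¹) • (Pa - Pb) := by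
      rw [two_mul, add_smul]
      simp only [smul_sub]
      abel
    have h2 : ‖Pa - Pb‖ = s / 2 * ‖a - b‖ := by
      rw [hPa', hPb', hf.iso i _ hPa _ hPb, add_sub_add_left_eq_sub, ← smul_sub, norm_smul,
        Real.norm_of_nonneg (by positivity)]
    have h3 : ‖(2 * (s / 2)⁻¹) • (Pa - Pb)‖ = 2 * ‖a - b‖ := by
      rw [norm_smul, Real.norm_of_nonneg (by positivity), h2]
      field_simp
    calc 2 * ε ≤ 2 * ‖a - b‖ := by linarith
      _ = _ := by rw [← h3, ← h1]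
      _ ≤ _ := norm_sub_le _ _
  have hmid1 : s⁻¹ • (Ps - P0) =
      (1 / 2 : ℝ) • ((s / 2)⁻¹ • (Pa - P0) + (s / 2)⁻¹ • (Ps - Pa)) := by
    rw [← smul_add, smul_smul]
    have : (1 / 2 : ℝ) * (s / 2)⁻¹ = s⁻¹ := by field_simp
    rw [this]
    congr 1
    abel
  have hmid2 : s⁻¹ • (Ps - P0) =
      (1 / 2 : ℝ) • ((s / 2)⁻¹ • (Pb - P0) + (s / 2)⁻¹ • (Ps - Pb)) := by
    rw [← smul_add, smul_smul]
    have : (1 / 2 : ℝ) * (s / 2)⁻¹ = s⁻¹ := by field_simp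
    rw [this]
    congr 1
    abel
  by_cases hc : ε ≤ ‖(s / 2)⁻¹ • (Pa - P0) - (s / 2)⁻¹ • (Ps - Pa)‖
  · exact ⟨_, hA1, hWmem _ hPa _ hP0, _, hA2, hWmem _ hPs _ hPa, hc, hmid1⟩
  · push Not at hc
    exact ⟨_, hB1, hWmem _ hPb _ hP0, _, hB2, hWmem _ hPs _ hPb, by linarith, hmid2⟩

lemma Good.mono {ι : Type*} {K : Set E} {f : ι → E → E} {C C' : Set E} (h : C ⊆ C') {v : E}
    (hv : Good K f C v) : Good K f C' v := by
  obtain ⟨p, hp, s₀, hs₀, h1⟩ := hv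
  exact ⟨p, hp, s₀, hs₀, fun q hq η h2 h3 s h4 h5 =>
    ⟨(h1 q hq η h2 h3 s h4 h5).1, fun i => h ((h1 q hq η h2 h3 s h4 h5).2 i)⟩⟩

end Pool.Agent.RNP45
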