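import Pool.Agent.LibRNP45.Defs

/-!
# [RN D2] The binary tree lemma
-/

open Set Topology Filter

namespace Pool.Agent.RNP45

variable {E : Type*} [NormedAddCommGroup E] [NormedSpace ℝ E]

/-- Weakly compact sets are bounded. -/
theorem tree_bdd {K : Set E} (hK : LRFix.WeaklyCompact K) :
    ∃ R : ℝ, 0 ≤ R ∧ ∀ x ∈ K, ‖x‖ ≤ R := by
  have := LRFix.KW.compactSpace hK
  obtain ⟨R, hR⟩ := banach_steinhaus
    (g := fun x : K => NormedSpace.inclusionInDoubleDual ℝ E x.1) (by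
      intro φ
      have h1 : IsCompact (range fun x : LRFix.KW K => φ x.val) :=
        isCompact_range (LRFix.KW.continuous_eval φ)
      obtain ⟨R, hR⟩ := h1.isBounded.exists_norm_le
      exact ⟨R, fun x => hR _ ⟨LRFix.KW.mk x.1 x.2, rfl⟩⟩)
  refine ⟨max R 0, le_max_right _ _, fun x hx => ?_⟩
  have h2 := hR ⟨x, hx⟩
  have h3 : ‖NormedSpace.inclusionInDoubleDual ℝ E x‖ = ‖x‖ :=
    (NormedSpace.inclusionInDoubleDualLi (E := E) ℝ).norm_map x
  rw [h3] at h2
  exact h2.trans (le_max_left _ _)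

/-- Functionals attain their maximum. -/
theorem tree_attain {C : Set E} (hC : LRFix.WeaklyCompact C) (hne : C.Nonempty)
    (φ : E →L[ℝ] ℝ) : ∃ x ∈ C, ∀ y ∈ C, φ y ≤ φ x := by
  have := LRFix.KW.compactSpace hC
  obtain ⟨a, ha⟩ := hne
  obtain ⟨x, -, hx⟩ := (isCompact_univ (X := LRFix.KW C)).exists_isMaxOn
    ⟨LRFix.KW.mk a ha, trivial⟩ (LRFix.KW.continuous_eval φ).continuousOn
  exact ⟨x.val, x.mem, fun y hy => hx (mem_univ (LRFix.KW.mk y hy))⟩

/-- The functionals along a branch. -/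
noncomputable def branch (Ψ : (E →L[ℝ] ℝ) → ℝ → (E →L[ℝ] ℝ)) (ρ : ℝ) (b : ℕ → Bool) :
    ℕ → (E →L[ℝ] ℝ)
  | 0 => 0
  | n + 1 => branch Ψ ρ b n + (cond (b n) (ρ ^ n) (-(ρ ^ n))) • Ψ (branch Ψ ρ b n) (ρ ^ n)

theorem branch_congr (Ψ : (E →L[ℝ] ℝ) → ℝ → (E →L[ℝ] ℝ)) (ρ : ℝ) {b b' : ℕ → Bool} (n : ℕ)
    (h : ∀ i < n, b i = b' i) : branch Ψ ρ b n = branch Ψ ρ b' n := by
  induction n with
  | zero => rfl
  | succ n ih =>
    rw [branch, branch, ih fun i hi => h i (by omega), h n (by omega)]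

/-- The binary tree lemma: a nonempty weakly compact separable set has slices of small
diameter. -/
theorem tree {C : Set E} (hC : LRFix.WeaklyCompact C) (hsep : TopologicalSpace.IsSeparable C)
    (hne : C.Nonempty) {e : ℝ} (he : 0 < e)
    (hnd : ∀ (φ : E →L[ℝ] ℝ) (c : ℝ), (∃ x ∈ C, c < φ x) →
      ∃ x ∈ C, ∃ y ∈ C, c < φ x ∧ c < φ y ∧ e ≤ ‖x - y‖) : False := by
  obtain ⟨R, hR0, hR⟩ := tree_bdd hC
  choose pt hpt hmax using fun φ : E →L[ℝ] ℝ => tree_attain hC hne φ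
  -- the splitting functional
  have key : ∀ (φ : E →L[ℝ] ℝ) (t : ℝ), ∃ ψ : E →L[ℝ] ℝ, ‖ψ‖ ≤ 1 ∧ (0 < t →
      2 * φ (pt φ) + t * e / 2 ≤
        (φ + t • ψ) (pt (φ + t • ψ)) + (φ + (-t) • ψ) (pt (φ + (-t) • ψ))) := by
    intro φ t
    by_cases ht : 0 < t
    · have hte : 0 < t * e := mul_pos ht he
      obtain ⟨x, hx, y, hy, hx1, hy1, hxy⟩ := hnd φ (φ (pt φ) - t * e / 4)
        ⟨pt φ, hpt φ, by linarith⟩
      obtain ⟨ψ, h1, h2⟩ := exists_dual_vector'' ℝ (x - y)
      have h2' : ψ (x - y) = ‖x - y‖ := by exact_mod_cast h2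
      refine ⟨ψ, h1, fun _ => ?_⟩
      have h3 := hmax (φ + t • ψ) x hx
      have h4 := hmax (φ + (-t) • ψ) y hy
      have h5 : (φ + t • ψ) x = φ x + t * ψ x := rfl
      have h6 : (φ + (-t) • ψ) y = φ y + (-t) * ψ y := rfl
      rw [h5] at h3
      rw [h6] at h4
      rw [map_sub] at h2'
      have h7 : t * e ≤ t * (ψ x - ψ y) := by
        rw [h2']
        exact mul_le_mul_of_nonneg_left hxy ht.le
      nlinarith
    · exact ⟨0, by simp, fun h => absurd h ht⟩
  choose Ψ hΨ1 hΨ using key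
  -- the ratio
  set δ : ℝ := e / (16 * R + 16) with hδ
  have hδ0 : 0 < δ := div_pos he (by linarith)
  have hδR : δ * R ≤ e / 16 := by
    have h1 : δ * (16 * R + 16) = e := by
      rw [hδ]
      exact div_mul_cancel₀ _ (by linarith : (16 * R + 16) ≠ 0)
    nlinarith
  set ρ : ℝ := δ / (1 + δ) with hρ
  have hρ0 : 0 < ρ := div_pos hδ0 (by linarith)
  have hρ1 : ρ < 1 := by
    rw [hρ, div_lt_one (by linarith)]
    linarith
  have hρδ : ρ / (1 - ρ) = δ := by
    have h1 : 1 - ρ = 1 / (1 + δ) := by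
      rw [hρ]
      field_simp
      ring
    rw [h1, hρ]
    field_simp
  have hdist : ∀ b n, dist (branch Ψ ρ b n) (branch Ψ ρ b (n + 1)) ≤ 1 * ρ ^ n := by
    intro b n
    rw [branch, dist_eq_norm]
    have h1 : branch Ψ ρ b n - (branch Ψ ρ b n +
        (cond (b n) (ρ ^ n) (-(ρ ^ n))) • Ψ (branch Ψ ρ b n) (ρ ^ n)) =
        -((cond (b n) (ρ ^ n) (-(ρ ^ n))) • Ψ (branch Ψ ρ b n) (ρ ^ n)) := by abel
    rw [h1, norm_neg, norm_smul]
    have h2 : ‖cond (b n) (ρ ^ n) (-(ρ ^ n))‖ = ρ ^ n := by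
      cases b n
      · simp only [cond_false, norm_neg, norm_pow, Real.norm_eq_abs, abs_of_pos hρ0]
      · simp only [cond_true, norm_pow, Real.norm_eq_abs, abs_of_pos hρ0]
    rw [h2, one_mul]
    have h3 : 0 ≤ ρ ^ n := by positivity
    calc ρ ^ n * ‖Ψ (branch Ψ ρ b n) (ρ ^ n)‖ ≤ ρ ^ n * 1 :=
          mul_le_mul_of_nonneg_left (hΨ1 _ _) h3
      _ = ρ ^ n := mul_one _
  have hconv : ∀ b, ∃ g : E →L[ℝ] ℝ, Tendsto (branch Ψ ρ b) atTop (𝓝 g) := fun b =>
    cauchySeq_tendsto_of_complete (cauchySeq_of_le_geometric ρ 1 hρ1 (hdist b))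
  choose G hG using hconv
  have hGd : ∀ b n, ‖branch Ψ ρ b (n + 1) - G b‖ ≤ ρ ^ n * δ := by
    intro b n
    have h1 := dist_le_of_le_geometric_of_tendsto ρ 1 hρ1 (hdist b) (hG b) (n + 1)
    rw [dist_eq_norm] at h1
    refine h1.trans (le_of_eq ?_)
    rw [← hρδ, pow_succ]
    ring
  -- the limit point nearly maximizes the functional of the next level
  have hnear : ∀ b n, branch Ψ ρ b (n + 1) (pt (branch Ψ ρ b (n + 1))) -
      2 * (ρ ^ n * δ * R) ≤ branch Ψ ρ b (n + 1) (pt (G b)) := by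
    intro b n
    have h0 : 0 ≤ ρ ^ n * δ := by positivity
    have h1 : ∀ x ∈ C, |branch Ψ ρ b (n + 1) x - G b x| ≤ ρ ^ n * δ * R := by
      intro x hx
      have h2 : branch Ψ ρ b (n + 1) x - G b x = (branch Ψ ρ b (n + 1) - G b) x := rfl
      rw [h2, ← Real.norm_eq_abs]
      refine (ContinuousLinearMap.le_opNorm _ _).trans ?_
      exact mul_le_mul (hGd b n) (hR x hx) (norm_nonneg _) h0
    have h3 := abs_le.1 (h1 _ (hpt (branch Ψ ρ b (n + 1))))
    have h4 := abs_le.1 (h1 _ (hpt (G b)))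
    have h5 := hmax (G b) _ (hpt (branch Ψ ρ b (n + 1)))
    linarith [h3.1, h3.2, h4.1, h4.2]
  -- separation for branches splitting at level `n`
  have hsplit : ∀ (b b' : ℕ → Bool) (n : ℕ), (∀ i < n, b i = b' i) → b n = true →
      b' n = false → e / 4 ≤ ‖pt (G b) - pt (G b')‖ := by
    intro b b' n hagree h1 h2
    have h3 : branch Ψ ρ b' n = branch Ψ ρ b n := (branch_congr Ψ ρ n hagree).symm
    set f := branch Ψ ρ b n with hf
    set t : ℝ := ρ ^ n with ht
    have ht0 : 0 < t := by positivity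
    have h4 : branch Ψ ρ b (n + 1) = f + t • Ψ f t := by
      rw [branch, h1]
      rfl
    have h5 : branch Ψ ρ b' (n + 1) = f + (-t) • Ψ f t := by
      rw [branch, h2, h3]
      rfl
    have h6 := hnear b n
    have h7 := hnear b' n
    rw [h4] at h6
    rw [h5] at h7
    have h8 := hΨ f t ht0
    have h9 := hmax f _ (hpt (G b))
    have h10 := hmax f _ (hpt (G b'))
    have h11 : (f + t • Ψ f t) (pt (G b)) = f (pt (G b)) + t * Ψ f t (pt (G b)) := rfl
    have h12 : (f + (-t) • Ψ f t) (pt (G b')) = f (pt (G b')) + (-t) * Ψ f t (pt (G b')) := rfl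
    rw [h11] at h6
    rw [h12] at h7
    have h13 : Ψ f t (pt (G b) - pt (G b')) ≤ ‖pt (G b) - pt (G b')‖ := by
      calc Ψ f t (pt (G b) - pt (G b')) ≤ ‖Ψ f t (pt (G b) - pt (G b'))‖ := le_abs_self _
        _ ≤ ‖Ψ f t‖ * ‖pt (G b) - pt (G b')‖ := (Ψ f t).le_opNorm _
        _ ≤ 1 * ‖pt (G b) - pt (G b')‖ := by
          exact mul_le_mul_of_nonneg_right (hΨ1 _ _) (norm_nonneg _)
        _ = _ := one_mul _
    rw [map_sub] at h13
    have h14 : t * (e / 2 - 4 * (δ * R)) ≤ t * (Ψ f t (pt (G b)) - Ψ f t (pt (G b'))) := by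
      nlinarith
    have h15 := le_of_mul_le_mul_left h14 ht0
    linarith
  have hsep2 : ∀ b b' : ℕ → Bool, b ≠ b' → e / 4 ≤ ‖pt (G b) - pt (G b')‖ := by
    intro b b' hne'
    have hex : ∃ n, b n ≠ b' n := Function.ne_iff.1 hne'
    classical
    set n := Nat.find hex with hn
    have h1 : b n ≠ b' n := Nat.find_spec hex
    have h2 : ∀ i < n, b i = b' i := fun i hi => by
      by_contra h
      exact Nat.find_min hex hi h
    cases hb : b n with
    | true =>
      cases hb' : b' n with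
      | true => rw [hb, hb'] at h1; exact absurd rfl h1
      | false => exact hsplit b b' n h2 hb hb'
    | false =>
      cases hb' : b' n with
      | true =>
        rw [norm_sub_rev]
        exact hsplit b' b n (fun i hi => (h2 i hi).symm) hb' hb
      | false => rw [hb, hb'] at h1; exact absurd rfl h1
  -- counting
  obtain ⟨D, hD, hCD⟩ := hsep
  have hd : ∀ b : ℕ → Bool, ∃ d ∈ D, dist (pt (G b)) d < e / 8 := fun b =>
    Metric.mem_closure_iff.1 (hCD (hpt (G b))) (e / 8) (by linarith)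
  choose d hdD hdd using hd
  have hinj : Function.Injective fun b => (⟨d b, hdD b⟩ : D) := by
    intro b b' h
    by_contra hne'
    have h1 := hsep2 b b' hne'
    have h2 : d b = d b' := congrArg Subtype.val h
    have h3 := hdd b
    have h4 := hdd b'
    rw [← h2] at h4
    have h5 := dist_triangle_right (pt (G b)) (pt (G b')) (d b)
    rw [dist_eq_norm] at h5
    linarith
  have : Countable D := hD.to_subtype
  obtain ⟨g, hg⟩ := exists_injective_nat D
  classical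
  refine Function.cantor_injective (fun s : Set ℕ => g ⟨d fun n => decide (n ∈ s), hdD _⟩) ?_
  intro s s' h
  have h1 := hinj (hg h)
  ext n
  have h2 := congrFun h1 n
  simpa using h2

end Pool.Agent.RNP45
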